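import Mathlib

open Polynomial

noncomputable section

namespace ZariskiEq

namespace Branch

theorem exists_clear {B : Type*} [CommRing B] [IsDomain B] (p : (FractionRing B)[X]) :
    ∃ (b : B) (q : B[X]), b ≠ 0 ∧ q.map (algebraMap B (FractionRing B)) =
      C (algebraMap B (FractionRing B) b) * p := by
  obtain ⟨b, hbm, hb⟩ := IsLocalization.integerNormalization_spec (nonZeroDivisors B) p
  refine ⟨b, IsLocalization.integerNormalization (nonZeroDivisors B) p,
    nonZeroDivisors.ne_zero hbm, ?_⟩
  rw [hb]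
  ext n
  simp [Algebra.smul_def]

theorem exists_bezout {B : Type*} [CommRing B] [IsDomain B] [CharZero B] (J : Ideal B[X])
    (hJ : J.IsRadical) (hne : J ≠ ⊥) :
    ∃ g ∈ J, ∃ c : B, c ≠ 0 ∧ ∃ a b : B[X], a * g + b * derivative g = C c := by
  classical
  obtain ⟨g0, hg0, hg0ne⟩ := Submodule.exists_mem_ne_zero_of_ne_bot hne
  obtain ⟨g, ⟨hgJ, hg⟩, hmin⟩ := WellFounded.has_min (measure (fun g : B[X] => g.natDegree)).wf
    {g | g ∈ J ∧ g ≠ 0} ⟨g0, hg0, hg0ne⟩
  set L := FractionRing B with hL
  have hinj : Function.Injective (algebraMap B L) := IsFractionRing.injective B L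
  set ι := algebraMap B L with hι
  have hinjp : Function.Injective (Polynomial.map ι) := Polynomial.map_injective _ hinj
  have hgL : g.map ι ≠ 0 := (Polynomial.map_ne_zero_iff hinj).2 hg
  have hsq : Squarefree (g.map ι) := by
    intro q ⟨s, hs⟩
    by_contra hq
    have hq0 : q ≠ 0 := by
      rintro rfl
      simp at hs
      exact hg ((Polynomial.map_eq_zero_iff hinj).1 (by simpa using hs))
    have hs0 : s ≠ 0 := by
      rintro rfl
      simp at hs
      exact hg ((Polynomial.map_eq_zero_iff hinj).1 (by simpa using hs))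
    have hqd : 0 < q.natDegree := Polynomial.natDegree_pos_iff_degree_pos.2
      (Polynomial.degree_pos_of_ne_zero_of_nonunit hq0 hq)
    obtain ⟨b1, p1, hb1, hp1⟩ := exists_clear (q * s)
    obtain ⟨b2, s1, hb2, hs1⟩ := exists_clear s
    have hkey : C b2 * p1 * p1 = C (b1 ^ 2) * g * s1 := by
      apply hinjp
      simp only [Polynomial.map_mul, Polynomial.map_C, map_pow, Polynomial.map_pow]
      rw [hp1, hs1, hs]
      ring
    have hmem : C b2 * p1 ∈ J := by
      apply hJ
      refine ⟨2, ?_⟩
      have : (C b2 * p1) ^ 2 = C b2 * (C (b1 ^ 2) * s1) * g := by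
        calc (C b2 * p1) ^ 2 = C b2 * (C b2 * p1 * p1) := by ring
          _ = _ := by rw [hkey]; ring
      rw [this]
      exact J.mul_mem_left _ hgJ
    have hp1ne : p1 ≠ 0 := by
      rintro rfl
      rw [Polynomial.map_zero] at hp1
      have := hp1.symm
      rw [mul_eq_zero, mul_eq_zero, Polynomial.C_eq_zero] at this
      rcases this with h | h | h
      · exact hb1 ((map_eq_zero_iff _ hinj).1 h)
      · exact hq0 h
      · exact hs0 h
    have hne' : C b2 * p1 ≠ 0 := mul_ne_zero (by rwa [Ne, Polynomial.C_eq_zero]) hp1ne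
    have hlt := hmin _ ⟨hmem, hne'⟩
    apply hlt
    change (C b2 * p1).natDegree < g.natDegree
    rw [Polynomial.natDegree_C_mul hb2]
    rw [← Polynomial.natDegree_map_eq_of_injective hinj p1, hp1,
      Polynomial.natDegree_C_mul ((map_ne_zero_iff _ hinj).2 hb1),
      ← Polynomial.natDegree_map_eq_of_injective hinj g, hs,
      Polynomial.natDegree_mul hq0 hs0, Polynomial.natDegree_mul (mul_ne_zero hq0 hq0) hs0,
      Polynomial.natDegree_mul hq0 hq0]
    omega
  have : CharZero L := charZero_of_injective_algebraMap hinj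
  have hsep : (g.map ι).Separable := PerfectField.separable_iff_squarefree.2 hsq
  obtain ⟨a, b, hab⟩ := hsep
  obtain ⟨b1, a1, hb1, ha1⟩ := exists_clear a
  obtain ⟨b2, a2, hb2, ha2⟩ := exists_clear b
  refine ⟨g, hgJ, b1 * b2, mul_ne_zero hb1 hb2, C b2 * a1, C b1 * a2, ?_⟩
  apply hinjp
  simp only [Polynomial.map_add, Polynomial.map_mul, Polynomial.map_C, map_mul]
  rw [ha1, ha2, ← Polynomial.derivative_map]
  calc _ = C (ι b1) * C (ι b2) * (a * g.map ι + b * derivative (g.map ι)) := by ring
    _ = _ := by rw [hab, mul_one]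

end Branch

end ZariskiEq
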