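import Pool.Agent.Lib.MP_e920bf_ag.Defs
import Pool.Agent.Lib.MP_e920bf_ag.Bezout

open MvPolynomial

noncomputable section

namespace ZariskiEq

namespace Branch

universe u

variable {K : Type u} [Field K] {n : ℕ}

/-- The linear form with coefficients `u i`. -/
def lin (u : Fin n → Fin (n + 1) → K) (i : Fin n) : MvPolynomial (Fin (n + 1)) K :=
  ∑ j, C (u i j) * X j

lemma eval_lin (u : Fin n → Fin (n + 1) → K) (i : Fin n) (x : Fin (n + 1) → K) :
    eval x (lin u i) = ∑ j, u i j * x j := by
  simp [lin]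

/-- Change of coordinates. -/
def rho (u : Fin n → Fin (n + 1) → K) :
    Polynomial (MvPolynomial (Fin n) K) →+* MvPolynomial (Fin (n + 1)) K :=
  Polynomial.eval₂RingHom
    (aeval (lin u) : MvPolynomial (Fin n) K →ₐ[K] MvPolynomial (Fin (n + 1)) K).toRingHom (X 0)

lemma rho_C (u : Fin n → Fin (n + 1) → K) (c : MvPolynomial (Fin n) K) :
    rho u (Polynomial.C c) = aeval (lin u) c := by
  simp [rho]

lemma rho_X (u : Fin n → Fin (n + 1) → K) : rho u Polynomial.X = X 0 := by
  simp [rho]

lemma eval_rho_C (u : Fin n → Fin (n + 1) → K) (c : MvPolynomial (Fin n) K)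
    (x : Fin (n + 1) → K) :
    eval x (rho u (Polynomial.C c)) = eval (fun i => ∑ j, u i j * x j) c := by
  rw [rho_C]
  induction c using MvPolynomial.induction_on with
  | C a => simp
  | add p q hp hq => rw [map_add, map_add, map_add, hp, hq]
  | mul_X p i hp => rw [map_mul, map_mul, map_mul, hp, aeval_X, eval_lin, eval_X]

/-- The derivation in direction `v`. -/
def dir (v : Fin (n + 1) → K) : Derivation K (MvPolynomial (Fin (n + 1)) K)
    (MvPolynomial (Fin (n + 1)) K) :=
  ∑ j, (C (v j) : MvPolynomial (Fin (n + 1)) K) • pderiv j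

lemma dir_apply (v : Fin (n + 1) → K) (F : MvPolynomial (Fin (n + 1)) K) :
    dir v F = ∑ j, C (v j) * pderiv j F := by
  change Derivation.coeFnAddMonoidHom (dir v) F = _
  rw [dir, map_sum, Finset.sum_apply]
  rfl

lemma dir_X (v : Fin (n + 1) → K) (i : Fin (n + 1)) : dir v (X i) = C (v i) := by
  rw [dir_apply, Finset.sum_eq_single i]
  · simp
  · intro j _ hj
    rw [pderiv_X_of_ne hj.symm, mul_zero]
  · simp

lemma eval_dir (v x : Fin (n + 1) → K) (F : MvPolynomial (Fin (n + 1)) K) :
    eval x (dir v F) = grad F x ⬝ᵥ v := by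
  rw [dir_apply]
  simp [grad, dotProduct, mul_comm]

lemma dir_lin (u : Fin n → Fin (n + 1) → K) (v : Fin (n + 1) → K)
    (hv : ∀ i, ∑ j, u i j * v j = 0) (i : Fin n) : dir v (lin u i) = 0 := by
  have h1 : ∀ j, dir v (C (u i j) * X j) = C (u i j * v j) := by
    intro j
    rw [Derivation.leibniz, dir_X]
    have : dir v (C (u i j)) = 0 := by
      exact (dir v).map_algebraMap (u i j)
    rw [this]
    simp
  unfold lin
  rw [map_sum]
  simp_rw [h1]
  rw [← map_sum, hv i, map_zero]

lemma dir_aeval (u : Fin n → Fin (n + 1) → K) (v : Fin (n + 1) → K)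
    (hv : ∀ i, ∑ j, u i j * v j = 0) (c : MvPolynomial (Fin n) K) :
    dir v (aeval (lin u) c) = 0 := by
  induction c using MvPolynomial.induction_on with
  | C a =>
    rw [aeval_C]
    exact (dir v).map_algebraMap a
  | add p q hp hq => rw [map_add, map_add, hp, hq, add_zero]
  | mul_X p i hp =>
    rw [map_mul, Derivation.leibniz, hp, aeval_X, dir_lin u v hv]
    simp

lemma dir_rho (u : Fin n → Fin (n + 1) → K) (v : Fin (n + 1) → K)
    (hv : ∀ i, ∑ j, u i j * v j = 0) (g : Polynomial (MvPolynomial (Fin n) K)) :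
    dir v (rho u g) = C (v 0) * rho u (Polynomial.derivative g) := by
  induction g using Polynomial.induction_on' with
  | add p q hp hq => rw [map_add, map_add, hp, hq, Polynomial.derivative_add, map_add, mul_add]
  | monomial m a =>
    rw [← Polynomial.C_mul_X_pow_eq_monomial, map_mul, map_pow, rho_X, rho_C,
      Derivation.leibniz, dir_aeval u v hv, Derivation.leibniz_pow, dir_X,
      Polynomial.derivative_C_mul_X_pow, map_mul, rho_C, map_pow, rho_X]
    simp only [smul_eq_mul, mul_zero, add_zero, map_mul, map_natCast, nsmul_eq_mul]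
    ring

lemma rho_surjective (u : Fin n → Fin (n + 1) → K)
    (hu : IsUnit (Matrix.det (fun i j : Fin n => u i j.succ))) :
    Function.Surjective (rho u) := by
  set A : Matrix (Fin n) (Fin n) K := fun i j => u i j.succ with hA
  have hX : ∀ j : Fin n, rho u (Polynomial.C (∑ i, C (A⁻¹ j i) * X i)
      - Polynomial.C (C (∑ i, A⁻¹ j i * u i 0)) * Polynomial.X) = X j.succ := by
    intro j
    rw [map_sub, map_mul, rho_C, rho_C, rho_X]
    have h1 : aeval (lin u) (∑ i, C (A⁻¹ j i) * X i : MvPolynomial (Fin n) K)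
        = ∑ i, C (A⁻¹ j i) * lin u i := by
      rw [map_sum]
      refine Finset.sum_congr rfl fun i _ => ?_
      rw [map_mul, aeval_X, aeval_C]; rfl
    rw [h1, aeval_C]
    have h2 : ∀ i, lin u i = C (u i 0) * X 0 + ∑ l : Fin n, C (A i l) * X l.succ := by
      intro i
      rw [lin, Fin.sum_univ_succ]
    simp_rw [h2, mul_add, Finset.sum_add_distrib, Finset.mul_sum]
    have h3 : ∑ i, ∑ l : Fin n, (C (A⁻¹ j i) * (C (A i l) * X l.succ) :
        MvPolynomial (Fin (n + 1)) K) = X j.succ := by
      rw [Finset.sum_comm]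
      have h4 : ∀ l : Fin n, ∑ i, (C (A⁻¹ j i) * (C (A i l) * X l.succ) :
          MvPolynomial (Fin (n + 1)) K) = C ((A⁻¹ * A) j l) * X l.succ := by
        intro l
        rw [Matrix.mul_apply, map_sum, Finset.sum_mul]
        refine Finset.sum_congr rfl fun i _ => ?_
        rw [map_mul, mul_assoc]
      simp_rw [h4]
      rw [Matrix.nonsing_inv_mul _ hu, Finset.sum_eq_single j]
      · simp
      · intro l _ hl
        rw [Matrix.one_apply_ne hl.symm]; simp
      · simp
    rw [h3]
    have h5 : (algebraMap K (MvPolynomial (Fin (n + 1)) K)) (∑ i, A⁻¹ j i * u i 0) * X 0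
        = ∑ i, C (A⁻¹ j i) * (C (u i 0) * X 0) := by
      rw [algebraMap_eq, map_sum, Finset.sum_mul]
      refine Finset.sum_congr rfl fun i _ => ?_
      rw [map_mul, mul_assoc]
    rw [h5]
    ring
  intro F
  induction F using MvPolynomial.induction_on with
  | C a => exact ⟨Polynomial.C (C a), by rw [rho_C, aeval_C]; rfl⟩
  | add p q hp hq =>
    obtain ⟨p', rfl⟩ := hp
    obtain ⟨q', rfl⟩ := hq
    exact ⟨p' + q', map_add _ _ _⟩
  | mul_X p i hp =>
    obtain ⟨p', rfl⟩ := hp
    refine Fin.cases ?_ (fun j => ?_) i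
    · exact ⟨p' * Polynomial.X, by rw [map_mul, rho_X]⟩
    · exact ⟨p' * _, by rw [map_mul, hX j]⟩


/-- The images of the critical points of a proper subset of affine space under a linear projection
satisfy a nontrivial polynomial equation. -/
theorem exists_branch_equation [CharZero K] (u : Fin n → Fin (n + 1) → K)
    (hu : IsUnit (Matrix.det (fun i j : Fin n => u i j.succ)))
    (V : Set (Fin (n + 1) → K)) (hV : vanishingIdeal K V ≠ ⊥) :
    ∃ c : MvPolynomial (Fin n) K, c ≠ 0 ∧ ∀ x ∈ V,
      (∀ F ∈ vanishingIdeal K V, ∀ v, (fun i => ∑ j, u i j * v j) = 0 → grad F x ⬝ᵥ v = 0) →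
      eval (fun i => ∑ j, u i j * x j) c = 0 := by
  classical
  set J : Ideal (Polynomial (MvPolynomial (Fin n) K)) :=
    Ideal.comap (rho u) (vanishingIdeal K V) with hJ
  have hsurj := rho_surjective u hu
  have hrad : J.IsRadical := by
    intro g hg
    obtain ⟨m, hm⟩ := hg
    rw [hJ, Ideal.mem_comap, map_pow] at hm
    rw [hJ, Ideal.mem_comap]
    intro x hx
    have := hm x hx
    rw [map_pow] at this
    exact eq_zero_of_pow_eq_zero this
  have hne : J ≠ ⊥ := by
    obtain ⟨F, hF, hF0⟩ := Submodule.exists_mem_ne_zero_of_ne_bot hV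
    obtain ⟨g, rfl⟩ := hsurj F
    intro h
    have : g ∈ J := hF
    rw [h, Ideal.mem_bot] at this
    rw [this, map_zero] at hF0
    exact hF0 rfl
  obtain ⟨g, hg, c, hc, a, b, hab⟩ := exists_bezout J hrad hne
  refine ⟨c, hc, fun x hx hcrit => ?_⟩
  -- a vector in the kernel
  obtain ⟨v, hv0, hv⟩ : ∃ v : Fin (n + 1) → K, v 0 = 1 ∧ ∀ i, ∑ j, u i j * v j = 0 := by
    set A : Matrix (Fin n) (Fin n) K := fun i j => u i j.succ with hA
    refine ⟨Fin.cons 1 (A⁻¹.mulVec (fun i => - u i 0)), rfl, fun i => ?_⟩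
    rw [Fin.sum_univ_succ]
    simp only [Fin.cons_zero, Fin.cons_succ, mul_one]
    have h1 : ∑ j : Fin n, u i j.succ * (A⁻¹.mulVec (fun i => - u i 0)) j
        = (A.mulVec (A⁻¹.mulVec (fun i => - u i 0))) i := rfl
    rw [h1, Matrix.mulVec_mulVec, Matrix.mul_nonsing_inv _ hu, Matrix.one_mulVec]
    ring
  have h1 : eval x (rho u g) = 0 := hg x hx
  have h2 : eval x (rho u (Polynomial.derivative g)) = 0 := by
    have h3 := hcrit (rho u g) hg v (funext hv)
    rw [← eval_dir, dir_rho u v hv, hv0] at h3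
    simpa using h3
  have h4 := congrArg (fun q => eval x (rho u q)) hab
  simp only [map_add, map_mul, h1, h2, mul_zero, add_zero] at h4
  rw [← eval_rho_C, ← h4]

end Branch

end ZariskiEq
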