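import Mathlib

/-!
# Zariski's equisingularity for hypersurfaces of affine space

Definitions for the statement of problem MP_e920bf_ag.  All varieties are given by their sets of
points; `MvPolynomial.vanishingIdeal` and `MvPolynomial.zeroLocus` are Mathlib's.
-/

open MvPolynomial Topology

noncomputable section

namespace ZariskiEq

universe u

section Algebraic

variable {m : ℕ} {k : Type u} [Field k]

/-- The Zariski closure of a set of points of affine space. -/
def zclosure (V : Set (Fin m → k)) : Set (Fin m → k) :=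
  zeroLocus k (vanishingIdeal k V)

/-- The points over an extension field `K` of the variety `V`. -/
def extendTo (K : Type u) [Field K] [Algebra k K] (V : Set (Fin m → k)) : Set (Fin m → K) :=
  zeroLocus K (vanishingIdeal k V)

/-- The gradient of the polynomial `F` at the point `x`. -/
def grad (F : MvPolynomial (Fin m) k) (x : Fin m → k) : Fin m → k :=
  fun j => eval x (pderiv j F)

/-- The singular locus of a (reduced) hypersurface `V`: the points of `V` at which the gradients
of all polynomials vanishing on `V` are zero. -/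
def singularLocus (V : Set (Fin m → k)) : Set (Fin m → k) :=
  {x | x ∈ V ∧ ∀ F ∈ vanishingIdeal k V, grad F x = 0}

/-- The span of the gradients at `x` of the polynomials vanishing on `V`. -/
def jacobianSpan (V : Set (Fin m → k)) (x : Fin m → k) : Submodule k (Fin m → k) :=
  Submodule.span k {g | ∃ F ∈ vanishingIdeal k V, g = grad F x}

/-- The simple points of an irreducible variety `V` (of any codimension): the points at which the
rank of the Jacobian matrix is maximal. -/
def simplePoints (V : Set (Fin m → k)) : Set (Fin m → k) :=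
  {x | x ∈ V ∧ ∀ y ∈ V, Module.finrank k (jacobianSpan V y) ≤ Module.finrank k (jacobianSpan V x)}

/-- `W` is an irreducible closed subvariety of affine space (over an algebraically closed field):
the zero set of a prime ideal. -/
def IsIrreducibleClosed (W : Set (Fin m → k)) : Prop :=
  ∃ P : Ideal (MvPolynomial (Fin m) k), P.IsPrime ∧ zeroLocus k P = W

/-- An algebraically closed field containing the coefficients `u i j` of a generic linear
projection of the affine space of dimension `n + 1` to that of dimension `n`: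
the algebraic closure of the field of rational functions in the `n (n + 1)` indeterminates. -/
abbrev GenericField (n : ℕ) (k : Type u) [Field k] : Type u :=
  AlgebraicClosure (FractionRing (MvPolynomial (Fin n × Fin (n + 1)) k))

/-- The indeterminates `u i j`. -/
def genericCoeff (n : ℕ) (k : Type u) [Field k] (i : Fin n) (j : Fin (n + 1)) :
    GenericField n k :=
  algebraMap (MvPolynomial (Fin n × Fin (n + 1)) k) (GenericField n k) (X (i, j))

/-- The generic linear projection `π*`. -/
def genericProj (n : ℕ) (k : Type u) [Field k]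
    (x : Fin (n + 1) → GenericField n k) : Fin n → GenericField n k :=
  fun i => ∑ j, genericCoeff n k i j * x j

/-- The branch locus `Δ*` of the restriction of the generic projection to the hypersurface `V`:
the set of the images of its critical points, a point `x` of `V` being critical if all vectors in
the kernel of the projection are annihilated by the differentials at `x` of the polynomials
vanishing on `V`.  (This is the zero set of the discriminant.) -/
def branchLocus (n : ℕ) {k : Type u} [Field k] (V : Set (Fin (n + 1) → k)) :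
    Set (Fin n → GenericField n k) :=
  genericProj n k '' {x | x ∈ extendTo (GenericField n k) V ∧
    ∀ F ∈ vanishingIdeal (GenericField n k) (extendTo (GenericField n k) V),
      ∀ v, genericProj n k v = 0 → grad F x ⬝ᵥ v = 0}

/-- Zariski's definition of equisingularity of the hypersurface `V` of the affine space of
dimension `n + 1` at the point `Q` along the subvariety `W`. -/
def EquisingularAt : (n : ℕ) → (k : Type u) → [Field k] →
    (V W : Set (Fin (n + 1) → k)) → (Q : Fin (n + 1) → k) → Prop
  | 0, _, _, V, W, Q => ¬ W ⊆ singularLocus V ∧ Q ∉ singularLocus V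
  | n + 1, k, _, V, W, Q =>
      (¬ W ⊆ singularLocus V ∧ Q ∉ singularLocus V) ∨
      (W ⊆ singularLocus V ∧
        EquisingularAt n (GenericField (n + 1) k) (branchLocus (n + 1) V)
          (genericProj (n + 1) k '' extendTo (GenericField (n + 1) k) W)
          (genericProj (n + 1) k fun j => algebraMap k (GenericField (n + 1) k) (Q j)))

/-- `Eqs (W / V)`. -/
def Eqs {n : ℕ} (V W : Set (Fin (n + 1) → k)) : Set (Fin (n + 1) → k) :=
  {Q | Q ∈ W ∧ EquisingularAt n k V W Q}

/-- The equisingular stratification of the hypersurface `V`. -/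
structure IsEquisingularStratification {n : ℕ} (V : Set (Fin (n + 1) → k))
    (𝒮 : Set (Set (Fin (n + 1) → k))) : Prop where
  nonempty : ∀ S ∈ 𝒮, S.Nonempty
  pairwiseDisjoint : 𝒮.PairwiseDisjoint id
  sUnion_eq : ⋃₀ 𝒮 = V
  irreducible : ∀ S ∈ 𝒮, IsIrreducibleClosed (zclosure S)
  open_in_closure : ∀ S ∈ 𝒮, ∃ Z, zclosure Z = Z ∧ S = zclosure S \ Z
  simple : ∀ S ∈ 𝒮, S ⊆ simplePoints (zclosure S)
  boundary : ∀ S ∈ 𝒮, ∃ 𝒯 ⊆ 𝒮, zclosure S \ S = ⋃₀ 𝒯
  eqs : ∀ W, IsIrreducibleClosed W → W ⊆ V → ∃ S ∈ 𝒮, Eqs V W = W ∩ S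

/-- The linear subspace `{x | x i = 0 for all i ∈ c}`. -/
def center (c : Finset (Fin m)) : Set (Fin m → k) :=
  {x | ∀ i ∈ c, x i = 0}

/-- The chart with index `j ∈ c` of the blowing-up of affine space with centre `center c`. -/
def blowupChart (c : Finset (Fin m)) (j : Fin m) (p : Fin m → k) : Fin m → k :=
  fun i => if i ∈ c ∧ i ≠ j then p i * p j else p i

/-- The part in the chart with index `j` of the blowing-up `V*` of `V` with centre `center c`
(the strict transform of `V`): the closure of the inverse image of `V \ center c`. -/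
def blowup (c : Finset (Fin m)) (j : Fin m) (V : Set (Fin m → k)) : Set (Fin m → k) :=
  zclosure {p | blowupChart c j p ∈ V ∧ blowupChart c j p ∉ center c}

end Algebraic

section Analytic

variable {m : ℕ}

/-- The set-theoretic conditions on the data `N₁, N₂, N₃, φ` in the conjecture of Zariski:
`N₁`, `N₂`, `N₃` are neighbourhoods of `Q`, `Q'`, `Q'` in `W₁`, `L`, `S` (Euclidean topology)
and `φ : N₁ × N₂ → N₃` is a bijection with inverse `ψ` and with `T ∘ φ = pr₁`. -/
structure IsLocalProduct (W₁ L S : Set (Fin m → ℂ)) (T : (Fin m → ℂ) → (Fin m → ℂ))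
    (Q Q' : Fin m → ℂ) (N₁ N₂ N₃ : Set (Fin m → ℂ))
    (φ : (Fin m → ℂ) × (Fin m → ℂ) → (Fin m → ℂ))
    (ψ : (Fin m → ℂ) → (Fin m → ℂ) × (Fin m → ℂ)) : Prop where
  subset₁ : N₁ ⊆ W₁
  subset₂ : N₂ ⊆ L
  subset₃ : N₃ ⊆ S
  nhds₁ : N₁ ∈ 𝓝[W₁] Q
  nhds₂ : N₂ ∈ 𝓝[L] Q'
  nhds₃ : N₃ ∈ 𝓝[S] Q'
  mapsTo_φ : Set.MapsTo φ (N₁ ×ˢ N₂) N₃
  mapsTo_ψ : Set.MapsTo ψ N₃ (N₁ ×ˢ N₂)
  leftInv : Set.LeftInvOn ψ φ (N₁ ×ˢ N₂)
  rightInv : Set.RightInvOn ψ φ N₃
  fst : ∀ a ∈ N₁, ∀ b ∈ N₂, T (φ (a, b)) = a

/-- There is an analytic isomorphism as in the conjecture: both maps are locally restrictions of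
holomorphic maps of the ambient spaces. -/
def LocallyAnalyticProduct (W₁ L S : Set (Fin m → ℂ)) (T : (Fin m → ℂ) → (Fin m → ℂ))
    (Q Q' : Fin m → ℂ) : Prop :=
  ∃ N₁ N₂ N₃ φ ψ, IsLocalProduct W₁ L S T Q Q' N₁ N₂ N₃ φ ψ ∧
    AnalyticOn ℂ φ (N₁ ×ˢ N₂) ∧ AnalyticOn ℂ ψ N₃

/-- The same with maps which are only required to be differentiable over the reals. -/
def LocallyDifferentiableProduct (W₁ L S : Set (Fin m → ℂ)) (T : (Fin m → ℂ) → (Fin m → ℂ))
    (Q Q' : Fin m → ℂ) : Prop :=
  ∃ N₁ N₂ N₃ φ ψ, IsLocalProduct W₁ L S T Q Q' N₁ N₂ N₃ φ ψ ∧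
    DifferentiableOn ℝ φ (N₁ ×ˢ N₂) ∧ DifferentiableOn ℝ ψ N₃

end Analytic

end ZariskiEq
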