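import Mathlib

open Topology Filter

noncomputable section

namespace ZariskiEq

namespace FourLines

/-- The union of the four lines `x = 0`, `y = 0`, `x = y`, `x = t y`. -/
def Z (t : ℂ) : Set (ℂ × ℂ) := {p | p.1 * p.2 * (p.1 - p.2) * (p.1 - t * p.2) = 0}

def wedge (p q : ℂ × ℂ) : ℂ := p.1 * q.2 - p.2 * q.1

/-- Direction vectors of the four lines. -/
def dirs (t : ℂ) : Fin 4 → ℂ × ℂ := ![(0, 1), (1, 0), (1, 1), (t, 1)]

lemma dirs_ne_zero (t : ℂ) (l : Fin 4) : dirs t l ≠ 0 := by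
  fin_cases l <;> simp [dirs, Prod.ext_iff]

lemma mem_Z_iff (t : ℂ) (p : ℂ × ℂ) : p ∈ Z t ↔ ∃ l, wedge p (dirs t l) = 0 := by
  simp only [Z, Set.mem_ofPred_eq, Fin.exists_fin_succ, wedge, dirs]
  simp [mul_eq_zero, sub_eq_zero, or_assoc, mul_comm]

lemma smul_mem_Z {t : ℂ} {p : ℂ × ℂ} (hp : p ∈ Z t) (z : ℂ) : z • p ∈ Z t := by
  simp only [Z, Set.mem_ofPred_eq, Prod.smul_fst, Prod.smul_snd, smul_eq_mul] at *
  have : z * p.1 * (z * p.2) * (z * p.1 - z * p.2) * (z * p.1 - t * (z * p.2)) =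
    z ^ 4 * (p.1 * p.2 * (p.1 - p.2) * (p.1 - t * p.2)) := by ring
  rw [this, hp, mul_zero]

lemma exists_eq_zero_of_forall (L : Fin 4 → ℂ →ₗ[ℝ] ℂ) (h : ∀ z, ∃ l, L l z = 0) :
    ∃ l, L l = 0 := by
  obtain ⟨l, hl⟩ := Subspace.exists_eq_top_of_iUnion_eq_univ (k := ℝ) (E := ℂ)
    (p := fun l => LinearMap.ker (L l)) (by
      rw [Set.eq_univ_iff_forall]
      intro z
      obtain ⟨l, hl⟩ := h z
      exact Set.mem_iUnion.2 ⟨l, hl⟩)
  exact ⟨l, LinearMap.ker_eq_top.1 hl⟩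

/-- wedge with a fixed vector as a linear map -/
def wedgeL (q : ℂ × ℂ) : ℂ × ℂ →ₗ[ℝ] ℂ where
  toFun p := wedge p q
  map_add' a b := by simp [wedge]; ring
  map_smul' r a := by simp [wedge]; ring

lemma exists_dir (t₀ : ℂ) (X : ℂ →ₗ[ℝ] ℂ × ℂ) (h : ∀ z, X z ∈ Z t₀) :
    ∃ l, ∀ z, wedge (X z) (dirs t₀ l) = 0 := by
  obtain ⟨l, hl⟩ := exists_eq_zero_of_forall (fun l => (wedgeL (dirs t₀ l)).comp X)
    (fun z => (mem_Z_iff t₀ _).1 (h z))
  exact ⟨l, fun z => LinearMap.congr_fun hl z⟩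

lemma exists_coord (p : ℂ × ℂ) (hp : p ≠ 0) (X : ℂ →ₗ[ℝ] ℂ × ℂ)
    (h : ∀ z, wedge (X z) p = 0) : ∃ β : ℂ →ₗ[ℝ] ℂ, ∀ z, X z = β z • p := by
  by_cases h1 : p.1 = 0
  · have h2 : p.2 ≠ 0 := fun h2 => hp (Prod.ext h1 h2)
    refine ⟨(LinearMap.mulLeft ℝ (p.2⁻¹)).comp ((LinearMap.snd ℝ ℂ ℂ).comp X), fun z => ?_⟩
    have h3 := h z
    simp only [wedge, h1, mul_zero, sub_zero, mul_eq_zero, h2, or_false] at h3
    refine Prod.ext ?_ ?_
    · simp [h3, h1]
    · simp; field_simp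
  · refine ⟨(LinearMap.mulLeft ℝ (p.1⁻¹)).comp ((LinearMap.fst ℝ ℂ ℂ).comp X), fun z => ?_⟩
    have h3 := h z
    simp only [wedge] at h3
    refine Prod.ext ?_ ?_
    · simp; field_simp
    · simp; field_simp; linear_combination -h3

/-- The cross-ratio of the directions with the given indices. -/
def mu (t₀ : ℂ) (l : Fin 4 → Fin 4) : ℂ :=
  wedge (dirs t₀ (l 0)) (dirs t₀ (l 2)) * wedge (dirs t₀ (l 1)) (dirs t₀ (l 3)) /
    (wedge (dirs t₀ (l 0)) (dirs t₀ (l 3)) * wedge (dirs t₀ (l 1)) (dirs t₀ (l 2)))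

/-- A finite set containing all parameters equivalent to `t₀`. -/
def E (t₀ : ℂ) : Set ℂ := Set.range (mu t₀) ∪ Set.range fun l => (starRingEnd ℂ) (mu t₀ l)

lemma finite_E (t₀ : ℂ) : (E t₀).Finite := (Set.finite_range _).union (Set.finite_range _)

lemma not_injective_of_range_line (B : ℂ × ℂ →ₗ[ℝ] ℂ × ℂ) (hB : Function.Injective B)
    (p : ℂ × ℂ) (h : ∀ v, wedge (B v) p = 0) (hp : p ≠ 0) : False := by
  have hsurj : Function.Surjective B := LinearMap.injective_iff_surjective.1 hB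
  apply hp
  obtain ⟨v, hv⟩ := hsurj (0, 1)
  obtain ⟨w, hw⟩ := hsurj (1, 0)
  have h1 := h v
  have h2 := h w
  rw [hv] at h1
  rw [hw] at h2
  simp [wedge] at h1 h2
  exact Prod.ext h1 h2

lemma wedge_eq_zero_trans {p q w : ℂ × ℂ} (hp : p ≠ 0) (h1 : wedge q p = 0)
    (h2 : wedge w p = 0) : wedge w q = 0 := by
  simp only [wedge] at *
  by_cases h : p.1 = 0
  · have h3 : p.2 ≠ 0 := fun h2 => hp (Prod.ext h h2)
    simp only [h, mul_zero, sub_zero, mul_eq_zero, h3, or_false] at h1 h2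
    rw [h1, h2]; ring
  · have : p.1 * (w.1 * q.2 - w.2 * q.1) = 0 := by
      linear_combination (-w.1) * h1 + q.1 * h2
    rcases mul_eq_zero.1 this with h' | h'
    · exact absurd h' h
    · exact h'

lemma wedge_comm (p q : ℂ × ℂ) : wedge p q = - wedge q p := by
  simp only [wedge]; ring

lemma wedge_add_left (p q r : ℂ × ℂ) : wedge (p + q) r = wedge p r + wedge q r := by
  simp only [wedge, Prod.fst_add, Prod.snd_add]; ring

lemma wedge_sub_left (p q r : ℂ × ℂ) : wedge (p - q) r = wedge p r - wedge q r := by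
  simp only [wedge, Prod.fst_sub, Prod.snd_sub]; ring

lemma wedge_smul_left (z : ℂ) (p r : ℂ × ℂ) : wedge (z • p) r = z * wedge p r := by
  simp only [wedge, Prod.smul_fst, Prod.smul_snd, smul_eq_mul]; ring

/-- A real-linear map `β` of the complex line with `β (t z) = μ β z`. -/
lemma eq_or_eq_conj (β : ℂ →ₗ[ℝ] ℂ) (hβ : Function.Injective β) (t μ : ℂ)
    (h : ∀ z, β (t * z) = μ * β z) : t = μ ∨ t = (starRingEnd ℂ) μ := by
  have hx : ∀ x y : ℝ, β (x + y * Complex.I) = x * β 1 + y * β Complex.I := by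
    intro x y
    have h1 : (x + y * Complex.I : ℂ) = x • (1 : ℂ) + y • Complex.I := by simp
    rw [h1, map_add, map_smul, map_smul]
    simp
  have ht : t = (t.re : ℂ) + (t.im : ℂ) * Complex.I := (Complex.re_add_im t).symm
  have h1 : (t.re : ℂ) * β 1 + t.im * β Complex.I = μ * β 1 := by
    rw [← hx, ← ht, ← h 1, mul_one]
  have h2 : (-t.im : ℂ) * β 1 + t.re * β Complex.I = μ * β Complex.I := by
    have := hx (-t.im) t.re
    rw [← h Complex.I]
    have h3 : t * Complex.I = ((-t.im : ℝ) : ℂ) + (t.re : ℂ) * Complex.I := by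
      conv_lhs => rw [ht]
      rw [add_mul, mul_assoc, Complex.I_mul_I]
      push_cast
      ring
    rw [h3, this]
    push_cast
    ring
  have hne : β 1 ≠ 0 := fun h0 => one_ne_zero (hβ (h0.trans (map_zero β).symm))
  have h3 : ((μ - t.re) ^ 2 + (t.im : ℂ) ^ 2) * β 1 = 0 := by
    linear_combination (μ - t.re) * (-h1) + t.im * (-h2)
  have h4 : (μ - t) * (μ - (starRingEnd ℂ) t) = 0 := by
    have h5 : (starRingEnd ℂ) t = (t.re : ℂ) - (t.im : ℂ) * Complex.I := by
      apply Complex.ext <;> simp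
    rw [h5]
    conv_lhs => rw [ht]
    simp only [Complex.add_re, Complex.ofReal_re, Complex.mul_re, Complex.I_re, mul_zero,
      Complex.ofReal_im, Complex.I_im, mul_one, sub_self, add_zero, Complex.add_im, Complex.mul_im,
      zero_add]
    rcases mul_eq_zero.1 h3 with h6 | h6
    · have : (μ - (↑t.re + ↑t.im * Complex.I)) * (μ - (↑t.re - ↑t.im * Complex.I)) =
        (μ - t.re) ^ 2 - (t.im : ℂ) ^ 2 * (Complex.I * Complex.I) := by ring
      rw [this, Complex.I_mul_I]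
      linear_combination h6
    · exact absurd h6 hne
  rcases mul_eq_zero.1 h4 with h5 | h5
  · left; exact (sub_eq_zero.1 h5).symm
  · right
    rw [sub_eq_zero.1 h5, Complex.conj_conj]

/-- If a real-linear automorphism maps the four lines with parameter `t` into the four lines with
parameter `t₀`, then `t` belongs to the finite set `E t₀`. -/
theorem mem_E_of_linear (t t₀ : ℂ) (B : ℂ × ℂ →ₗ[ℝ] ℂ × ℂ)
    (hB : Function.Injective B) (h : ∀ d ∈ Z t, B d ∈ Z t₀) : t ∈ E t₀ := by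
  let X : ℂ →ₗ[ℝ] ℂ × ℂ := B.comp (LinearMap.inl ℝ ℂ ℂ)
  let Y : ℂ →ₗ[ℝ] ℂ × ℂ := B.comp (LinearMap.inr ℝ ℂ ℂ)
  have hBXY : ∀ z w, B (z, w) = X z + Y w := by
    intro z w
    simp only [X, Y, LinearMap.comp_apply, LinearMap.inl_apply, LinearMap.inr_apply]
    rw [← map_add]
    simp
  let U : ℂ →ₗ[ℝ] ℂ × ℂ := X.comp (LinearMap.mulLeft ℝ t) + Y
  obtain ⟨l1, h1⟩ := exists_dir t₀ X fun z => by
    have := h (z, 0) (by simp [Z])
    rwa [hBXY, map_zero, add_zero] at this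
  obtain ⟨l2, h2⟩ := exists_dir t₀ Y fun z => by
    have := h (0, z) (by simp [Z])
    rwa [hBXY, map_zero, zero_add] at this
  obtain ⟨l3, h3⟩ := exists_dir t₀ (X + Y) fun z => by
    have := h (z, z) (by simp [Z])
    rwa [hBXY] at this
  obtain ⟨l4, h4⟩ := exists_dir t₀ U fun z => by
    have := h (t * z, z) (by simp [Z])
    rwa [hBXY] at this
  obtain ⟨β1, hβ1⟩ := exists_coord _ (dirs_ne_zero t₀ l1) X h1
  obtain ⟨β2, hβ2⟩ := exists_coord _ (dirs_ne_zero t₀ l2) Y h2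
  have hinj1 : Function.Injective β1 := by
    intro a b hab
    have : X a = X b := by rw [hβ1, hβ1, hab]
    have h' := hB this
    simpa using h'
  have h3' : ∀ z, β1 z * wedge (dirs t₀ l1) (dirs t₀ l3) +
      β2 z * wedge (dirs t₀ l2) (dirs t₀ l3) = 0 := by
    intro z
    have := h3 z
    rwa [LinearMap.add_apply, wedge_add_left, hβ1, hβ2, wedge_smul_left, wedge_smul_left] at this
  have h4' : ∀ z, β1 (t * z) * wedge (dirs t₀ l1) (dirs t₀ l4) +
      β2 z * wedge (dirs t₀ l2) (dirs t₀ l4) = 0 := by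
    intro z
    have := h4 z
    have hU : U z = X (t * z) + Y z := rfl
    rwa [hU, wedge_add_left, hβ1, hβ2, wedge_smul_left, wedge_smul_left] at this
  -- nonvanishing
  have hw23 : wedge (dirs t₀ l2) (dirs t₀ l3) ≠ 0 := by
    intro h0
    refine not_injective_of_range_line B hB (dirs t₀ l3) ?_ (dirs_ne_zero t₀ l3)
    rintro ⟨z, w⟩
    rw [hBXY, wedge_add_left]
    have hY : ∀ w, wedge (Y w) (dirs t₀ l3) = 0 := by
      intro w
      rw [hβ2, wedge_smul_left, h0, mul_zero]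
    have hX : ∀ z, wedge (X z) (dirs t₀ l3) = 0 := by
      intro z
      have := h3 z
      rw [LinearMap.add_apply, wedge_add_left, hY, add_zero] at this
      exact this
    rw [hX, hY, add_zero]
  have hw14 : wedge (dirs t₀ l1) (dirs t₀ l4) ≠ 0 := by
    intro h0
    refine not_injective_of_range_line B hB (dirs t₀ l4) ?_ (dirs_ne_zero t₀ l4)
    rintro ⟨z, w⟩
    rw [hBXY, wedge_add_left]
    have hX : ∀ w, wedge (X w) (dirs t₀ l4) = 0 := by
      intro w
      rw [hβ1, wedge_smul_left, h0, mul_zero]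
    have hY : ∀ z, wedge (Y z) (dirs t₀ l4) = 0 := by
      intro z
      have := h4 z
      have hU : U z = X (t * z) + Y z := rfl
      rw [hU, wedge_add_left, hX, zero_add] at this
      exact this
    rw [hX, hY, add_zero]
  have hkey : ∀ z, β1 (t * z) = mu t₀ ![l1, l2, l3, l4] * β1 z := by
    intro z
    have e3 := h3' z
    have e4 := h4' z
    simp only [mu, Matrix.cons_val_zero, Matrix.cons_val_one, Matrix.cons_val]
    field_simp
    linear_combination (wedge (dirs t₀ l2) (dirs t₀ l3)) * e4 -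
      (wedge (dirs t₀ l2) (dirs t₀ l4)) * e3
  rcases eq_or_eq_conj β1 hinj1 t _ hkey with h5 | h5
  · exact Or.inl ⟨_, h5.symm⟩
  · exact Or.inr ⟨_, h5.symm⟩

/-- The polynomial defining the four lines. -/
def P (t : ℂ) (p : ℂ × ℂ) : ℂ := p.1 * p.2 * (p.1 - p.2) * (p.1 - t * p.2)

lemma isClosed_Z (t : ℂ) : IsClosed (Z t) := by
  have : Z t = P t ⁻¹' {0} := rfl
  rw [this]
  refine IsClosed.preimage ?_ isClosed_singleton
  unfold P
  fun_prop

lemma differentiableAt_P (t : ℂ) (p : ℂ × ℂ) : DifferentiableAt ℝ (P t) p := by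
  unfold P
  fun_prop

lemma hasDerivAt_line (v : ℂ × ℂ) : HasDerivAt (fun s : ℝ => s • v) v 0 := by
  simpa using (hasDerivAt_id (0 : ℝ)).smul_const v

lemma eventually_line_mem {t : ℂ} {C : Set (ℂ × ℂ)} (hC : C ∈ 𝓝[Z t] 0) {v : ℂ × ℂ}
    (hv : v ∈ Z t) : ∀ᶠ s : ℝ in 𝓝 0, s • v ∈ C := by
  have h1 : Tendsto (fun s : ℝ => s • v) (𝓝 0) (𝓝[Z t] 0) := by
    rw [tendsto_nhdsWithin_iff]
    constructor
    · have := (hasDerivAt_line v).continuousAt.tendsto
      simpa using this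
    · refine Eventually.of_forall fun s => ?_
      have : s • v = (s : ℂ) • v := by
        ext <;> simp
      rw [this]
      exact smul_mem_Z hv _
  exact h1.eventually_mem hC

/-- The analytic part of the argument: an isomorphism of the germ of the four lines with parameter
`t₀` at the origin with the germ at some point of the four lines with parameter `t`. -/
theorem mem_E_of_germ (t t₀ : ℂ) (ht0 : t ≠ 0) (ht1 : t ≠ 1) (C D : Set (ℂ × ℂ))
    (g h : ℂ × ℂ → ℂ × ℂ) (M B : ℂ × ℂ →L[ℝ] ℂ × ℂ)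
    (hC : C ∈ 𝓝[Z t₀] 0) (hCZ : C ⊆ Z t₀) (hDZ : D ⊆ Z t) (hg : Set.MapsTo g C D)
    (hh : Set.MapsTo h D C) (hinv : ∀ p ∈ C, h (g p) = p)
    (hM : HasFDerivWithinAt g M C 0) (hB : HasFDerivWithinAt h B D (g 0))
    (hD : g 0 = 0 → D ∈ 𝓝[Z t] 0) : t ∈ E t₀ := by
  -- derivative along lines
  have hgl : ∀ v ∈ Z t₀, HasDerivAt (fun s : ℝ => g (s • v)) (M v) 0 := by
    intro v hv
    have h1 : HasFDerivWithinAt g M C ((0 : ℝ) • v) := by rwa [zero_smul]
    exact h1.comp_hasDerivAt (0 : ℝ) (hasDerivAt_line v) (eventually_line_mem hC hv)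
  have hBM : ∀ v ∈ Z t₀, B (M v) = v := by
    intro v hv
    have h1 : HasFDerivWithinAt h B D (g ((0 : ℝ) • v)) := by rwa [zero_smul]
    have h2 : HasDerivAt (fun s : ℝ => h (g (s • v))) (B (M v)) 0 :=
      h1.comp_hasDerivAt (0 : ℝ) (hgl v hv)
        ((eventually_line_mem hC hv).mono fun s hs => hg hs)
    have h3 : (fun s : ℝ => h (g (s • v))) =ᶠ[𝓝 0] fun s : ℝ => s • v :=
      (eventually_line_mem hC hv).mono fun s hs => hinv _ hs
    exact (h2.congr_of_eventuallyEq h3.symm).unique (hasDerivAt_line v)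
  have hsplit : ∀ v : ℂ × ℂ, v = (v.1, 0) + (0, v.2) := by
    intro v; ext <;> simp
  have hz1 : ∀ z : ℂ, ((z, 0) : ℂ × ℂ) ∈ Z t₀ := fun z => by simp [Z]
  have hz2 : ∀ z : ℂ, ((0, z) : ℂ × ℂ) ∈ Z t₀ := fun z => by simp [Z]
  have hBM' : ∀ v, B (M v) = v := by
    intro v
    conv_lhs => rw [hsplit v]
    rw [map_add, map_add, hBM _ (hz1 _), hBM _ (hz2 _)]
    exact (hsplit v).symm
  have hMinj : Function.Injective M := Function.LeftInverse.injective hBM'
  have hMsurj : Function.Surjective M :=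
    (LinearMap.injective_iff_surjective (f := (M : ℂ × ℂ →ₗ[ℝ] ℂ × ℂ))).1 hMinj
  have hBinj : Function.Injective B := by
    intro a b hab
    obtain ⟨a', rfl⟩ := hMsurj a
    obtain ⟨b', rfl⟩ := hMsurj b
    rw [hBM', hBM'] at hab
    rw [hab]
  -- the base point is the origin
  have h0C : (0 : ℂ × ℂ) ∈ C := mem_of_mem_nhdsWithin (by simp [Z]) hC
  set q := g 0 with hq
  have hqZ : P t q = 0 := hDZ (hg h0C)
  have hP := (differentiableAt_P t q).hasFDerivAt
  have hPM : ∀ v ∈ Z t₀, fderiv ℝ (P t) q (M v) = 0 := by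
    intro v hv
    have h1 : HasFDerivAt (P t) (fderiv ℝ (P t) q) (g ((0 : ℝ) • v)) := by rwa [zero_smul]
    have h2 : HasDerivAt (fun s : ℝ => P t (g (s • v))) (fderiv ℝ (P t) q (M v)) 0 :=
      HasFDerivAt.comp_hasDerivAt (l := P t) (f := fun s : ℝ => g (s • v)) (0 : ℝ) h1 (hgl v hv)
    have h3 : (fun s : ℝ => P t (g (s • v))) =ᶠ[𝓝 0] fun _ => 0 :=
      (eventually_line_mem hC hv).mono fun s hs => hDZ (hg hs)
    exact (h2.congr_of_eventuallyEq h3.symm).unique (hasDerivAt_const _ _)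
  have hPM' : ∀ v, fderiv ℝ (P t) q (M v) = 0 := by
    intro v
    rw [hsplit v, map_add, map_add, hPM _ (hz1 _), hPM _ (hz2 _), add_zero]
  have hPz : ∀ w, fderiv ℝ (P t) q w = 0 := by
    intro w
    obtain ⟨v, rfl⟩ := hMsurj w
    exact hPM' v
  obtain ⟨x, y⟩ := q
  have hd1 : y * (x - y) * (x - t * y) + x * y * (x - t * y) + x * y * (x - y) = 0 := by
    have h1 : HasFDerivAt (P t) (fderiv ℝ (P t) (x, y)) (((x, y) : ℂ × ℂ) + (0 : ℝ) • (1, 0)) := by
      rwa [zero_smul, add_zero]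
    have h2 : HasDerivAt (fun s : ℝ => P t ((x, y) + s • ((1, 0) : ℂ × ℂ)))
        (fderiv ℝ (P t) (x, y) (1, 0)) 0 :=
      HasFDerivAt.comp_hasDerivAt (l := P t) (f := fun s : ℝ => (x, y) + s • ((1, 0) : ℂ × ℂ))
        (0 : ℝ) h1 ((hasDerivAt_line (1, 0)).const_add _)
    rw [hPz] at h2
    have h3 : HasDerivAt (fun s : ℝ => P t ((x, y) + s • ((1, 0) : ℂ × ℂ)))
        (y * (x - y) * (x - t * y) + x * y * (x - t * y) + x * y * (x - y)) 0 := by
      have e1 : (fun s : ℝ => P t ((x, y) + s • ((1, 0) : ℂ × ℂ))) =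
          fun s : ℝ => (x + s) * y * ((x + s) - y) * ((x + s) - t * y) := by
        funext s; simp [P]
      rw [e1]
      have hs : HasDerivAt (fun s : ℝ => (x + (s : ℂ))) 1 0 :=
        (Complex.ofRealCLM.hasDerivAt).const_add x
      have := ((hs.mul_const y).mul (hs.sub_const y)).mul (hs.sub_const (t * y))
      convert! this using 1
      simp
      ring
    exact h3.unique h2
  have hd2 : x * (x - y) * (x - t * y) - x * y * (x - t * y) - t * (x * y * (x - y)) = 0 := by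
    have h1 : HasFDerivAt (P t) (fderiv ℝ (P t) (x, y)) (((x, y) : ℂ × ℂ) + (0 : ℝ) • (0, 1)) := by
      rwa [zero_smul, add_zero]
    have h2 : HasDerivAt (fun s : ℝ => P t ((x, y) + s • ((0, 1) : ℂ × ℂ)))
        (fderiv ℝ (P t) (x, y) (0, 1)) 0 :=
      HasFDerivAt.comp_hasDerivAt (l := P t) (f := fun s : ℝ => (x, y) + s • ((0, 1) : ℂ × ℂ))
        (0 : ℝ) h1 ((hasDerivAt_line (0, 1)).const_add _)
    rw [hPz] at h2
    have h3 : HasDerivAt (fun s : ℝ => P t ((x, y) + s • ((0, 1) : ℂ × ℂ)))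
        (x * (x - y) * (x - t * y) - x * y * (x - t * y) - t * (x * y * (x - y))) 0 := by
      have e1 : (fun s : ℝ => P t ((x, y) + s • ((0, 1) : ℂ × ℂ))) =
          fun s : ℝ => x * (y + s) * (x - (y + s)) * (x - t * (y + s)) := by
        funext s; simp [P]
      rw [e1]
      have hs : HasDerivAt (fun s : ℝ => (y + (s : ℂ))) 1 0 :=
        (Complex.ofRealCLM.hasDerivAt).const_add y
      have := ((hs.const_mul x).mul (hs.const_sub x)).mul ((hs.const_mul t).const_sub x)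
      convert! this using 1
      simp
      ring
    exact h3.unique h2
  have hxy : x = 0 ∧ y = 0 := by
    have h1 : x * y * (x - y) * (x - t * y) = 0 := hqZ
    have ht1' : 1 - t ≠ 0 := sub_ne_zero.2 ht1.symm
    rcases mul_eq_zero.1 h1 with h1 | h1
    · rcases mul_eq_zero.1 h1 with h1 | h1
      · rcases mul_eq_zero.1 h1 with h1 | h1
        · subst h1
          refine ⟨rfl, ?_⟩
          have : t * y ^ 3 = 0 := by linear_combination hd1
          simpa [ht0] using this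
        · subst h1
          refine ⟨?_, rfl⟩
          have : x ^ 3 = 0 := by linear_combination hd2
          simpa using this
      · have h2 : x = y := sub_eq_zero.1 h1
        subst h2
        have : (1 - t) * x ^ 3 = 0 := by linear_combination hd1
        have hx : x = 0 := by simpa [ht1'] using this
        exact ⟨hx, hx⟩
    · have h2 : x = t * y := sub_eq_zero.1 h1
      subst h2
      have : (t * (1 - t)) * y ^ 3 = 0 := by linear_combination -hd1
      have hy : y = 0 := by simpa [ht1', ht0] using this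
      exact ⟨by rw [hy, mul_zero], hy⟩
  have hq0 : ((x, y) : ℂ × ℂ) = 0 := by rw [hxy.1, hxy.2]; rfl
  have hDn := hD hq0
  have hh0 : h 0 = 0 := by
    have := hinv 0 h0C
    rwa [← hq, hq0] at this
  -- `B` maps the lines into the lines
  have hBZ : ∀ d ∈ Z t, B d ∈ Z t₀ := by
    intro d hd
    have h1 : HasFDerivWithinAt h B D ((0 : ℝ) • d) := by rw [zero_smul, ← hq0]; exact hB
    have h2 : HasDerivAt (fun s : ℝ => h (s • d)) (B d) 0 :=
      h1.comp_hasDerivAt (0 : ℝ) (hasDerivAt_line d) (eventually_line_mem hDn hd)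
    rw [hasDerivAt_iff_tendsto_slope] at h2
    refine (isClosed_Z t₀).mem_of_tendsto h2 ?_
    have h3 : ∀ᶠ s : ℝ in 𝓝[≠] 0, s • d ∈ D :=
      (eventually_line_mem hDn hd).filter_mono nhdsWithin_le_nhds
    refine h3.mono fun s hs => ?_
    have h4 : h (s • d) ∈ Z t₀ := hCZ (hh hs)
    have h5 : slope (fun s : ℝ => h (s • d)) 0 s = ((s⁻¹ : ℝ) : ℂ) • h (s • d) := by
      rw [slope_def_module]
      simp only [sub_zero, zero_smul, hh0]
      ext <;> simp
    rw [h5]
    exact smul_mem_Z h4 _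
  exact mem_E_of_linear t t₀ (B : ℂ × ℂ →ₗ[ℝ] ℂ × ℂ) hBinj hBZ

end FourLines

end ZariskiEq
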