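import Pool.Agent.Lib.MP_e920bf_ag.Line
import Pool.Agent.Lib.MP_e920bf_ag.FourLines

open MvPolynomial Topology Filter

noncomputable section

namespace ZariskiEq

namespace Example

/-- The polynomial `x y (x - y) (x - t y)`. -/
def h : MvPolynomial (Fin 4) ℂ := X 0 * X 1 * (X 0 - X 1) * (X 0 - X 3 * X 1)

/-- The hypersurface `z ^ 5 = x y (x - y) (x - t y)`. -/
def V : Set (Fin 4 → ℂ) := {x | x 2 ^ 5 = x 0 * x 1 * (x 0 - x 1) * (x 0 - x 3 * x 1)}

/-- The index set of the coordinates vanishing on the `t`-axis. -/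
abbrev c : Finset (Fin 4) := {0, 1, 2}

lemma eval_h (x : Fin 4 → ℂ) :
    eval x h = x 0 * x 1 * (x 0 - x 1) * (x 0 - x 3 * x 1) := by
  simp [h]

lemma mem_center (x : Fin 4 → ℂ) : x ∈ center c ↔ x 0 = 0 ∧ x 1 = 0 ∧ x 2 = 0 := by
  simp [center]

lemma blowupChart_eq (p : Fin 4 → ℂ) : blowupChart c 2 p = ![p 0 * p 2, p 1 * p 2, p 2, p 3] := by
  funext i
  fin_cases i <;> simp [blowupChart]

/-- The graph of `h`. -/
def G : Set (Fin 4 → ℂ) := {p | p 2 = p 0 * p 1 * (p 0 - p 1) * (p 0 - p 3 * p 1)}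

/-- substitution -/
def phi : MvPolynomial (Fin 4) ℂ →ₐ[ℂ] MvPolynomial (Fin 4) ℂ := aeval ![X 0, X 1, h, X 3]

/-- The point of the graph over a given point. -/
def gr (x : Fin 4 → ℂ) : Fin 4 → ℂ := ![x 0, x 1, eval x h, x 3]

lemma eval_phi (x : Fin 4 → ℂ) (p : MvPolynomial (Fin 4) ℂ) : eval x (phi p) = eval (gr x) p := by
  induction p using MvPolynomial.induction_on with
  | C a => simp [phi]
  | add p q hp hq => rw [map_add, map_add, map_add, hp, hq]
  | mul_X p i hp =>
    rw [map_mul, map_mul, map_mul, hp]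
    congr 1
    fin_cases i <;> simp [phi, gr]

lemma gr_mem (x : Fin 4 → ℂ) : gr x ∈ G := by
  simp [G, gr, eval_h]

lemma gr_eq {x : Fin 4 → ℂ} (hx : x ∈ G) : gr x = x := by
  have hx' : x 2 = x 0 * x 1 * (x 0 - x 1) * (x 0 - x 3 * x 1) := hx
  funext i
  fin_cases i <;> simp [gr, eval_h, hx']

lemma mem_vanishing_G (p : MvPolynomial (Fin 4) ℂ) : p ∈ vanishingIdeal ℂ G ↔ phi p = 0 := by
  rw [mem_vanishingIdeal]
  constructor
  · intro hp
    apply MvPolynomial.funext
    intro x
    rw [eval_phi, map_zero]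
    exact hp _ (gr_mem x)
  · intro hp x hx
    rw [← gr_eq hx, ← eval_phi, hp, map_zero]

lemma h_ne_zero : h ≠ 0 := by
  intro h0
  have := congrArg (eval ![2, 1, 0, 0]) h0
  rw [eval_h, map_zero] at this
  simp at this
  norm_num at this

lemma mem_G_iff (x : Fin 4 → ℂ) : x ∈ G ↔ eval x (X 2 - h) = 0 := by
  rw [map_sub, eval_X, eval_h, sub_eq_zero]
  rfl

lemma zeroLocus_ker : zeroLocus ℂ (RingHom.ker phi.toRingHom) = G := by
  ext x
  constructor
  · intro hx
    rw [mem_G_iff]
    have h1 : X 2 - h ∈ RingHom.ker phi.toRingHom := by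
      rw [RingHom.mem_ker]
      apply MvPolynomial.funext
      intro y
      change eval y (phi (X 2 - h)) = _
      rw [eval_phi, map_zero]
      exact (mem_G_iff _).1 (gr_mem y)
    simpa using hx _ h1
  · intro hx p hp
    rw [RingHom.mem_ker] at hp
    have h1 : eval x p = 0 := by
      rw [← gr_eq hx, ← eval_phi]
      change eval x (phi.toRingHom p) = 0
      rw [hp, map_zero]
    simpa using h1

lemma irreducible_G : IsIrreducibleClosed G :=
  ⟨RingHom.ker phi.toRingHom, RingHom.ker_isPrime _, zeroLocus_ker⟩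

lemma zclosure_G : zclosure G = G := by
  apply Set.Subset.antisymm
  · conv_rhs => rw [← zeroLocus_ker]
    apply zeroLocus_anti_mono
    conv_rhs => rw [← zeroLocus_ker]
    exact le_vanishingIdeal_zeroLocus _
  · exact zeroLocus_vanishingIdeal_le _

lemma blowup_V : blowup c 2 V = G := by
  have hA : {p : Fin 4 → ℂ | blowupChart c 2 p ∈ V ∧ blowupChart c 2 p ∉ center c} =
      {p | p 2 ≠ 0 ∧ p ∈ G} := by
    ext p
    rw [Set.mem_ofPred_eq, blowupChart_eq]
    simp only [Set.mem_ofPred_eq, mem_center, V, G]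
    simp only [Matrix.cons_val_zero, Matrix.cons_val_one, Matrix.cons_val]
    constructor
    · rintro ⟨h1, h2⟩
      have h3 : p 2 ≠ 0 := by
        intro h3
        apply h2
        rw [h3]; simp
      refine ⟨h3, ?_⟩
      have h4 : p 2 ^ 4 * (p 2 - p 0 * p 1 * (p 0 - p 1) * (p 0 - p 3 * p 1)) = 0 := by
        linear_combination h1
      rcases mul_eq_zero.1 h4 with h5 | h5
      · exact absurd (pow_eq_zero_iff (by norm_num)|>.1 h5) h3
      · exact sub_eq_zero.1 h5
    · rintro ⟨h1, h2⟩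
      refine ⟨?_, fun h3 => h1 h3.2.2⟩
      linear_combination p 2 ^ 4 * h2
  unfold blowup
  rw [hA]
  apply Set.Subset.antisymm
  · conv_rhs => rw [← zclosure_G]
    apply zeroLocus_anti_mono
    apply vanishingIdeal_anti_mono
    intro p hp
    exact hp.2
  · intro x hx p hp
    have h1 : phi p * h = 0 := by
      apply MvPolynomial.funext
      intro y
      rw [map_mul, map_zero, eval_phi]
      by_cases h2 : eval y h = 0
      · rw [h2, mul_zero]
      · have h3 : gr y ∈ {p : Fin 4 → ℂ | p 2 ≠ 0 ∧ p ∈ G} := by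
          refine ⟨?_, gr_mem y⟩
          simpa [gr] using h2
        rw [mem_vanishingIdeal.1 hp _ h3, zero_mul]
    rcases mul_eq_zero.1 h1 with h2 | h2
    · have : eval x p = 0 := by
        rw [← gr_eq hx, ← eval_phi, h2, map_zero]
      simpa using this
    · exact absurd h2 h_ne_zero

lemma dvd_of_mem_vanishing {p : MvPolynomial (Fin 4) ℂ} (hp : p ∈ vanishingIdeal ℂ G) :
    X 2 - h ∣ p := by
  rw [mem_vanishing_G] at hp
  set I : Ideal (MvPolynomial (Fin 4) ℂ) := Ideal.span {X 2 - h} with hI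
  have h1 : (Ideal.Quotient.mkₐ ℂ I).comp phi = Ideal.Quotient.mkₐ ℂ I := by
    apply MvPolynomial.algHom_ext
    intro i
    fin_cases i
    · simp [phi]
    · simp [phi]
    · simp only [phi, AlgHom.comp_apply]
      simp only [Fin.reduceFinMk, aeval_X, Matrix.cons_val]
      rw [Ideal.Quotient.mkₐ_eq_mk, Ideal.Quotient.eq]
      rw [← neg_mem_iff, neg_sub]
      exact Ideal.subset_span rfl
    · simp [phi]
  have h2 := DFunLike.congr_fun h1 p
  rw [AlgHom.comp_apply, hp, map_zero] at h2
  have h3 : p ∈ I := by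
    rw [← Ideal.Quotient.eq_zero_iff_mem]
    exact h2.symm
  exact Ideal.mem_span_singleton.1 h3

lemma mem_vanishing_self : X 2 - h ∈ vanishingIdeal ℂ G := by
  rw [mem_vanishingIdeal]
  intro x hx
  exact (mem_G_iff x).1 hx

lemma grad_self_ne_zero (x : Fin 4 → ℂ) : grad (X 2 - h) x ≠ 0 := by
  intro h0
  have h1 := congrFun h0 2
  have h2 : pderiv 2 (X 2 - h) = 1 := by
    simp [h, Derivation.leibniz]
  simp only [grad, h2] at h1
  simp at h1

lemma jacobianSpan_G {x : Fin 4 → ℂ} (hx : x ∈ G) :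
    jacobianSpan G x = Submodule.span ℂ {grad (X 2 - h) x} := by
  apply le_antisymm
  · apply Submodule.span_le.2
    rintro g ⟨F, hF, rfl⟩
    obtain ⟨q, rfl⟩ := dvd_of_mem_vanishing hF
    have : grad ((X 2 - h) * q) x = eval x q • grad (X 2 - h) x := by
      funext j
      have h1 := (mem_G_iff x).1 hx
      simp only [grad, Derivation.leibniz, smul_eq_mul, map_add, map_mul, Pi.smul_apply, h1,
        zero_mul, zero_add]
    rw [this]
    exact Submodule.smul_mem _ _ (Submodule.subset_span rfl)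
  · apply Submodule.span_mono
    rintro g rfl
    exact ⟨_, mem_vanishing_self, rfl⟩

lemma finrank_jacobianSpan_G {x : Fin 4 → ℂ} (hx : x ∈ G) :
    Module.finrank ℂ (jacobianSpan G x) = 1 := by
  rw [jacobianSpan_G hx]
  exact finrank_span_singleton (grad_self_ne_zero x)

lemma singularLocus_G : singularLocus G = ∅ := by
  rw [Set.eq_empty_iff_forall_notMem]
  rintro x ⟨_, hx⟩
  exact grad_self_ne_zero x (hx _ mem_vanishing_self)

lemma Eqs_G (W : Set (Fin 4 → ℂ)) : Eqs (n := 3) G W = W := by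
  ext Q
  constructor
  · exact fun hQ => hQ.1
  · intro hQ
    refine ⟨hQ, Or.inl ⟨?_, ?_⟩⟩
    · intro hs
      have := hs hQ
      rw [singularLocus_G] at this
      exact this
    · rw [singularLocus_G]
      exact fun hs => hs

lemma zclosure_empty : zclosure (∅ : Set (Fin 4 → ℂ)) = ∅ := by
  unfold zclosure
  rw [vanishingIdeal_empty, zeroLocus_top]
  rfl

lemma isStratification_G : IsEquisingularStratification (n := 3) G {G} where
  nonempty := by
    rintro S rfl
    exact ⟨gr 0, gr_mem 0⟩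
  pairwiseDisjoint := Set.pairwiseDisjoint_singleton _ _
  sUnion_eq := Set.sUnion_singleton _
  irreducible := by
    rintro S rfl
    rw [zclosure_G]
    exact irreducible_G
  open_in_closure := by
    rintro S rfl
    exact ⟨∅, zclosure_empty, by rw [zclosure_G, Set.sdiff_empty]⟩
  simple := by
    rintro S rfl x hx
    rw [zclosure_G]
    refine ⟨hx, fun y hy => ?_⟩
    rw [finrank_jacobianSpan_G hx, finrank_jacobianSpan_G hy]
  boundary := by
    rintro S rfl
    exact ⟨∅, Set.empty_subset _, by rw [zclosure_G, Set.sdiff_self, Set.sUnion_empty]⟩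
  eqs := by
    intro W _ hW
    exact ⟨G, rfl, by rw [Eqs_G, Set.inter_eq_left.2 hW]⟩

lemma stratification_unique {𝒮 : Set (Set (Fin 4 → ℂ))}
    (h𝒮 : IsEquisingularStratification (n := 3) G 𝒮) : 𝒮 = {G} := by
  obtain ⟨S, hS, hE⟩ := h𝒮.eqs G irreducible_G subset_rfl
  rw [Eqs_G] at hE
  have hsub : ∀ S ∈ 𝒮, S ⊆ G := by
    intro S hS
    rw [← h𝒮.sUnion_eq]
    exact Set.subset_sUnion_of_mem hS
  have hSG : S = G := by
    apply Set.Subset.antisymm (hsub S hS)
    rw [hE]
    exact Set.inter_subset_right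
  subst hSG
  apply Set.Subset.antisymm
  · intro S' hS'
    by_contra hne
    have := h𝒮.pairwiseDisjoint hS' hS hne
    simp only [Function.onFun, id] at this
    have h1 := Set.disjoint_iff_inter_eq_empty.1 this
    rw [Set.inter_eq_left.2 (hsub S' hS')] at h1
    exact (h𝒮.nonempty S' hS').ne_empty h1
  · rintro S' rfl
    exact hS

end Example

end ZariskiEq
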