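import Pool.Agent.Lib.MP_e920bf_ag.Defs

open MvPolynomial

noncomputable section

namespace ZariskiEq

universe u

variable {k K : Type u} [Field k] [Field K] [Algebra k K] {m : ℕ}

lemma eval_map_aeval (x : Fin m → K) (p : MvPolynomial (Fin m) k) :
    eval x (map (algebraMap k K) p) = aeval x p := by
  rw [eval_map, aeval_def]

lemma aeval_point (x : Fin m → k) (p : MvPolynomial (Fin m) k) :
    aeval (fun i => algebraMap k K (x i)) p = algebraMap k K (eval x p) := by
  induction p using MvPolynomial.induction_on with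
  | C a => simp
  | add p q hp hq => rw [map_add, map_add, map_add, hp, hq]
  | mul_X p i hp => rw [map_mul, map_mul, map_mul, hp, aeval_X, eval_X]

lemma mem_vanishingIdeal {V : Set (Fin m → k)} {p : MvPolynomial (Fin m) k} :
    p ∈ vanishingIdeal k V ↔ ∀ x ∈ V, eval x p = 0 := by
  simp

lemma decompose {ι : Type*} (b : Module.Basis ι k K) (F : MvPolynomial (Fin m) K) :
    ∃ G : ι →₀ MvPolynomial (Fin m) k,
      F = G.sum fun α g => C (b α) * map (algebraMap k K) g := by
  classical
  induction F using MvPolynomial.induction_on' with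
  | monomial s a =>
    refine ⟨(b.repr a).mapRange (fun r => monomial s r) (map_zero _), ?_⟩
    rw [Finsupp.sum_mapRange_index (by simp)]
    have h1 : ∀ α r, (C (b α) * map (algebraMap k K) (monomial s r) : MvPolynomial (Fin m) K)
        = monomial s (r • b α) := by
      intro α r
      rw [map_monomial, C_mul_monomial, Algebra.smul_def, mul_comm]
    simp_rw [h1]
    conv_lhs => rw [← b.linearCombination_repr a]
    rw [Finsupp.linearCombination_apply, Finsupp.sum, Finsupp.sum, map_sum]
  | add p q hp hq =>
    obtain ⟨G, hG⟩ := hp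
    obtain ⟨H, hH⟩ := hq
    refine ⟨G + H, ?_⟩
    rw [Finsupp.sum_add_index' (by simp) (by intros; rw [map_add, mul_add]), ← hG, ← hH]

/-- Polynomials over the big field vanishing on `V` are combinations of polynomials over the
small field vanishing on `V`. -/
lemma decompose_vanishing (V : Set (Fin m → k)) (F : MvPolynomial (Fin m) K)
    (hF : ∀ x ∈ V, eval (fun i => algebraMap k K (x i)) F = 0) :
    ∃ (ι : Type u) (s : Finset ι) (a : ι → K) (G : ι → MvPolynomial (Fin m) k),
      (∀ α, G α ∈ vanishingIdeal k V) ∧ F = ∑ α ∈ s, C (a α) * map (algebraMap k K) (G α) := by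
  classical
  let b := Module.Basis.ofVectorSpace k K
  obtain ⟨G, hG⟩ := decompose b F
  refine ⟨_, G.support, b, G, fun α => mem_vanishingIdeal.2 fun x hx => ?_, hG⟩
  have h1 := hF x hx
  rw [hG, Finsupp.sum, map_sum] at h1
  have h2 : ∀ α, eval (fun i => algebraMap k K (x i)) (C (b α) * map (algebraMap k K) (G α))
      = (eval x (G α)) • b α := by
    intro α
    rw [map_mul, eval_C, eval_map_aeval, aeval_point, Algebra.smul_def, mul_comm]
  simp_rw [h2] at h1
  have h3 := linearIndependent_iff'.1 b.linearIndependent G.support _ h1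
  by_cases hα : α ∈ G.support
  · exact h3 α hα
  · rw [Finsupp.notMem_support_iff.1 hα, map_zero]

lemma mem_extendTo_of_mem {V : Set (Fin m → k)} {x : Fin m → k} (hx : x ∈ V) :
    (fun i => algebraMap k K (x i)) ∈ extendTo K V := by
  intro p hp
  rw [aeval_point, mem_vanishingIdeal.1 hp x hx, map_zero]

lemma grad_eq_zero_of_extend (V : Set (Fin m → k)) (x : Fin m → K)
    (hx : ∀ G ∈ vanishingIdeal k V, ∀ j, aeval x (pderiv j G) = 0)
    (F : MvPolynomial (Fin m) K) (hF : F ∈ vanishingIdeal K (extendTo K V)) :
    grad F x = 0 := by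
  classical
  obtain ⟨ι, s, a, G, hG, rfl⟩ := decompose_vanishing V F (fun y hy =>
    mem_vanishingIdeal.1 hF _ (mem_extendTo_of_mem hy))
  funext j
  simp only [grad, map_sum, Pi.zero_apply]
  refine Finset.sum_eq_zero fun α _ => ?_
  rw [pderiv_C_mul, map_mul, pderiv_map, eval_map_aeval, hx _ (hG α), mul_zero]

end ZariskiEq
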