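import Pool.Agent.Lib.MP_e920bf_ag.Example

open MvPolynomial Topology Filter

noncomputable section

namespace ZariskiEq

namespace Example

/-- The point of the `t`-axis with the given coordinate. -/
def vertex (t : ℂ) : Fin 4 → ℂ := ![0, 0, 0, t]

lemma vertex_eq (t : ℂ) : vertex t = 0 + t • (Pi.single 3 1 : Fin 4 → ℂ) := by
  funext i
  fin_cases i <;> simp [vertex]

lemma mem_center_iff (x : Fin 4 → ℂ) : x ∈ center c ↔ ∃ t, x = vertex t := by
  rw [mem_center]
  constructor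
  · rintro ⟨h0, h1, h2⟩
    refine ⟨x 3, ?_⟩
    funext i
    fin_cases i <;> simp [vertex, h0, h1, h2]
  · rintro ⟨t, rfl⟩
    simp [vertex]

lemma center_eq_range : (center c : Set (Fin 4 → ℂ)) =
    Set.range fun t : ℂ => (0 : Fin 4 → ℂ) + t • (Pi.single 3 1 : Fin 4 → ℂ) := by
  ext x
  rw [mem_center_iff]
  simp_rw [vertex_eq]
  exact ⟨fun ⟨t, ht⟩ => ⟨t, ht.symm⟩, fun ⟨t, ht⟩ => ⟨t, ht.symm⟩⟩

lemma irreducible_center : IsIrreducibleClosed (center c : Set (Fin 4 → ℂ)) := by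
  let ρ : MvPolynomial (Fin 4) ℂ →ₐ[ℂ] MvPolynomial (Fin 4) ℂ := aeval ![0, 0, 0, X 3]
  have hρ : ∀ (x : Fin 4 → ℂ) p, eval x (ρ p) = eval (vertex (x 3)) p := by
    intro x p
    induction p using MvPolynomial.induction_on with
    | C a => simp [ρ]
    | add p q hp hq => rw [map_add, map_add, map_add, hp, hq]
    | mul_X p i hp =>
      rw [map_mul, map_mul, map_mul, hp]
      congr 1
      fin_cases i <;> simp [ρ, vertex]
  refine ⟨RingHom.ker ρ.toRingHom, RingHom.ker_isPrime _, ?_⟩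
  ext x
  constructor
  · intro hx
    rw [mem_center]
    have h1 : ∀ i : Fin 4, i ≠ 3 → x i = 0 := by
      intro i hi
      have : (X i : MvPolynomial (Fin 4) ℂ) ∈ RingHom.ker ρ.toRingHom := by
        rw [RingHom.mem_ker]
        change ρ (X i) = 0
        fin_cases i
        · simp [ρ]
        · simp [ρ]
        · simp [ρ]
        · exact absurd rfl hi
      simpa using hx _ this
    exact ⟨h1 0 (by decide), h1 1 (by decide), h1 2 (by decide)⟩
  · intro hx p hp
    obtain ⟨t, rfl⟩ := (mem_center_iff x).1 hx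
    rw [RingHom.mem_ker] at hp
    have h1 : eval (vertex t) p = 0 := by
      have h2 := hρ (vertex t) p
      have h3 : vertex (vertex t 3) = vertex t := by simp [vertex]
      rw [h3] at h2
      rw [← h2]
      change eval _ (ρ.toRingHom p) = 0
      rw [hp, map_zero]
    simpa using h1

lemma center_subset_V : center c ⊆ V := by
  intro x hx
  rw [mem_center] at hx
  simp [V, hx.1, hx.2.2]

lemma finite_bad : {t : ℂ | vertex t ∉ Eqs (n := 3) V (center c)}.Finite := by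
  have hV : vanishingIdeal ℂ V ≠ ⊥ := by
    intro h0
    have h1 : X 2 ^ 5 - h ∈ vanishingIdeal ℂ V := by
      rw [mem_vanishingIdeal]
      intro x hx
      have hx' : x 2 ^ 5 = x 0 * x 1 * (x 0 - x 1) * (x 0 - x 3 * x 1) := hx
      rw [map_sub, map_pow, eval_X, eval_h, hx', sub_self]
    rw [h0, Ideal.mem_bot] at h1
    have := congrArg (eval ![0, 0, 1, 0]) h1
    rw [map_sub, map_pow, eval_X, eval_h, map_zero] at this
    simp at this
  have h1 := finite_not_equisingular_line 3 ℂ V hV 0 (Pi.single 3 1) (by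
    intro h0
    have := congrFun h0 3
    simp at this) (by
    intro τ
    apply center_subset_V
    rw [center_eq_range]
    exact ⟨τ, rfl⟩)
  refine h1.subset ?_
  intro t ht hE
  apply ht
  rw [← center_eq_range, ← vertex_eq] at hE
  exact ⟨(mem_center_iff _).2 ⟨t, rfl⟩, hE⟩

/-- The point `(x, y, 0, t)`. -/
def pt (t : ℂ) (p : ℂ × ℂ) : Fin 4 → ℂ := ![p.1, p.2, 0, t]

/-- The first two coordinates. -/
def pr (x : Fin 4 → ℂ) : ℂ × ℂ := (x 0, x 1)

lemma pr_pt (t : ℂ) (p : ℂ × ℂ) : pr (pt t p) = p := by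
  simp [pr, pt]

lemma pt_zero (t : ℂ) : pt t 0 = vertex t := by
  simp [pt, vertex]

lemma mem_G_over (x : Fin 4 → ℂ) (t : ℂ) :
    (x ∈ G ∧ blowupChart c 2 x = vertex t) ↔ (x = pt t (pr x) ∧ pr x ∈ FourLines.Z t) := by
  rw [blowupChart_eq]
  simp only [G, FourLines.Z, Set.mem_ofPred_eq, pr, vertex, pt]
  constructor
  · rintro ⟨h1, h2⟩
    have e2 := congrFun h2 2
    have e3 := congrFun h2 3
    simp at e2 e3
    rw [e2, e3] at h1
    refine ⟨?_, h1.symm⟩
    funext i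
    fin_cases i <;> simp [e2, e3]
  · rintro ⟨h1, h2⟩
    have e2 := congrFun h1 2
    have e3 := congrFun h1 3
    simp at e2 e3
    rw [e2, e3]
    refine ⟨h2.symm, ?_⟩
    funext i
    fin_cases i <;> simp

/-- `pt t` as an affine map: its linear part. -/
def ptL : ℂ × ℂ →L[ℝ] (Fin 4 → ℂ) :=
  ContinuousLinearMap.pi ![ContinuousLinearMap.fst ℝ ℂ ℂ, ContinuousLinearMap.snd ℝ ℂ ℂ, 0, 0]

def prL : (Fin 4 → ℂ) →L[ℝ] ℂ × ℂ :=
  (ContinuousLinearMap.proj 0).prod (ContinuousLinearMap.proj 1)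

lemma hasFDerivAt_pt (t : ℂ) (p : ℂ × ℂ) : HasFDerivAt (pt t) ptL p := by
  have : pt t = fun p => ptL p + vertex t := by
    funext p i
    fin_cases i <;> simp [pt, ptL, vertex]
  rw [this]
  exact ptL.hasFDerivAt.add_const _

lemma hasFDerivAt_pr (x : Fin 4 → ℂ) : HasFDerivAt pr prL x := by
  have : pr = fun x => prL x := by
    funext x
    simp [pr, prL]
  rw [this]
  exact prL.hasFDerivAt

lemma continuous_pt (t : ℂ) : Continuous (pt t) :=
  continuous_iff_continuousAt.2 fun p => (hasFDerivAt_pt t p).continuousAt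

lemma continuous_vertex : Continuous vertex := by
  have : vertex = fun t => 0 + t • (Pi.single 3 1 : Fin 4 → ℂ) := funext vertex_eq
  rw [this]
  fun_prop

/-- The product structure fails, even differentiably, at every point of `W₁`. -/
theorem not_product (τ₀ : ℂ) :
    ¬ LocallyDifferentiableProduct (Eqs (n := 3) V (center c))
      {p | p ∈ G ∧ blowupChart c 2 p = vertex τ₀}
      {p | p ∈ G ∧ blowupChart c 2 p ∈ Eqs (n := 3) V (center c)}
      (blowupChart c 2) (vertex τ₀) (vertex τ₀) := by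
  rintro ⟨N₁, N₂, N₃, φ, ψ, H, hφ, hψ⟩
  set W₁ := Eqs (n := 3) V (center c) with hW₁
  -- open sets
  obtain ⟨U₁, hU₁o, hU₁m, hU₁⟩ := mem_nhdsWithin.1 H.nhds₁
  obtain ⟨U₃, hU₃o, hU₃m, hU₃⟩ := mem_nhdsWithin.1 H.nhds₃
  have hkey : ∀ t, vertex t ∈ N₁ → vertex t ∈ U₃ → t ≠ 0 → t ≠ 1 → t ∈ FourLines.E τ₀ := by
    intro t ht1 ht3 ht ht'
    have htW : vertex t ∈ W₁ := H.subset₁ ht1
    set C : Set (ℂ × ℂ) := {p | pt τ₀ p ∈ N₂} with hC
    set D : Set (ℂ × ℂ) := {p | pt t p ∈ N₃} with hD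
    have hCZ : C ⊆ FourLines.Z τ₀ := by
      intro p hp
      have := ((mem_G_over _ _).1 (H.subset₂ hp)).2
      rwa [pr_pt] at this
    have hN3 : ∀ x ∈ N₃, blowupChart c 2 x = vertex t → x = pt t (pr x) ∧ pr x ∈ FourLines.Z t := by
      intro x hx hxt
      exact (mem_G_over x t).1 ⟨(H.subset₃ hx).1, hxt⟩
    have hT : ∀ p, pt t p ∈ N₃ → blowupChart c 2 (pt t p) = vertex t := by
      intro p _
      rw [blowupChart_eq]
      funext i
      fin_cases i <;> simp [pt, vertex]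
    have hDZ : D ⊆ FourLines.Z t := by
      intro p hp
      have := (hN3 _ hp (hT p hp)).2
      rwa [pr_pt] at this
    have hg : ∀ p ∈ C, φ (vertex t, pt τ₀ p) ∈ N₃ ∧
        pt t (pr (φ (vertex t, pt τ₀ p))) = φ (vertex t, pt τ₀ p) := by
      intro p hp
      have h1 : φ (vertex t, pt τ₀ p) ∈ N₃ := H.mapsTo_φ (Set.mk_mem_prod ht1 hp)
      exact ⟨h1, (hN3 _ h1 (H.fst _ ht1 _ hp)).1.symm⟩
    have hh : ∀ p ∈ D, (ψ (pt t p)).1 = vertex t ∧ (ψ (pt t p)).2 ∈ N₂ ∧
        pt τ₀ (pr (ψ (pt t p)).2) = (ψ (pt t p)).2 := by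
      intro p hp
      have h1 := H.mapsTo_ψ hp
      have h2 := H.rightInv hp
      have h3 := H.fst _ h1.1 _ h1.2
      rw [Prod.mk.eta, h2, hT p hp] at h3
      exact ⟨h3.symm, h1.2, ((mem_G_over _ _).1 (H.subset₂ h1.2)).1.symm⟩
    have h0C : (0 : ℂ × ℂ) ∈ C := by
      change pt τ₀ 0 ∈ N₂
      rw [pt_zero]
      refine mem_of_mem_nhdsWithin ?_ H.nhds₂
      rw [Set.mem_ofPred_eq, mem_G_over]
      simp [pr, vertex, pt, FourLines.Z]
    -- derivatives
    obtain ⟨φ', hφ'⟩ := hφ (vertex t, pt τ₀ 0) (Set.mk_mem_prod ht1 h0C)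
    obtain ⟨ψ', hψ'⟩ := hψ (φ (vertex t, pt τ₀ 0)) (hg 0 h0C).1
    refine FourLines.mem_E_of_germ t τ₀ ht ht' C D (fun p => pr (φ (vertex t, pt τ₀ p)))
      (fun p => pr (ψ (pt t p)).2)
      (prL.comp (φ'.comp ((0 : ℂ × ℂ →L[ℝ] (Fin 4 → ℂ)).prod ptL)))
      (prL.comp ((ContinuousLinearMap.snd ℝ _ _).comp (ψ'.comp ptL)))
      ?_ hCZ hDZ ?_ ?_ ?_ ?_ ?_ ?_
    · -- C is a neighbourhood
      have h1 : Tendsto (pt τ₀) (𝓝[FourLines.Z τ₀] 0)
          (𝓝[{p | p ∈ G ∧ blowupChart c 2 p = vertex τ₀}] (vertex τ₀)) := by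
        rw [tendsto_nhdsWithin_iff]
        constructor
        · rw [← pt_zero]
          exact ((continuous_pt τ₀).tendsto 0).mono_left nhdsWithin_le_nhds
        · filter_upwards [self_mem_nhdsWithin] with p hp
          rw [mem_G_over, pr_pt]
          exact ⟨rfl, hp⟩
      exact h1 H.nhds₂
    · intro p hp
      change pt t _ ∈ N₃
      rw [(hg p hp).2]
      exact (hg p hp).1
    · intro p hp
      change pt τ₀ _ ∈ N₂
      rw [(hh p hp).2.2]
      exact (hh p hp).2.1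
    · intro p hp
      rw [(hg p hp).2, H.leftInv (Set.mk_mem_prod ht1 hp)]
      exact pr_pt _ _
    · have h1 : HasFDerivWithinAt (fun p => (vertex t, pt τ₀ p))
          ((0 : ℂ × ℂ →L[ℝ] (Fin 4 → ℂ)).prod ptL) C 0 :=
        (hasFDerivWithinAt_const _ _ _).prodMk (hasFDerivAt_pt τ₀ 0).hasFDerivWithinAt
      have h2 := hφ'.comp (0 : ℂ × ℂ) h1 (fun p hp => Set.mk_mem_prod ht1 hp)
      exact (hasFDerivAt_pr _).comp_hasFDerivWithinAt (0 : ℂ × ℂ) h2
    · have h0 : pt t (pr (φ (vertex t, pt τ₀ 0))) = φ (vertex t, pt τ₀ 0) := (hg 0 h0C).2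
      rw [← h0] at hψ'
      have h1 : HasFDerivWithinAt (pt t) ptL D (pr (φ (vertex t, pt τ₀ 0))) :=
        (hasFDerivAt_pt t _).hasFDerivWithinAt
      have h2 := hψ'.comp _ h1 (fun p hp => hp)
      have h3 := ((ContinuousLinearMap.snd ℝ (Fin 4 → ℂ) (Fin 4 → ℂ)).hasFDerivAt
        (x := ψ (pt t (pr (φ (vertex t, pt τ₀ 0)))))).comp_hasFDerivWithinAt
          (pr (φ (vertex t, pt τ₀ 0))) h2
      exact (hasFDerivAt_pr _).comp_hasFDerivWithinAt _ h3
    · intro _
      have h1 : ∀ᶠ p in 𝓝[FourLines.Z t] 0, pt t p ∈ U₃ := by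
        apply Filter.Eventually.filter_mono nhdsWithin_le_nhds
        apply (continuous_pt t).continuousAt.eventually_mem
        rw [pt_zero]
        exact hU₃o.mem_nhds ht3
      filter_upwards [h1, self_mem_nhdsWithin] with p hp1 hp2
      apply hU₃
      refine ⟨hp1, ?_⟩
      have h3 := (mem_G_over (pt t p) t).2 ⟨by rw [pr_pt], by rwa [pr_pt]⟩
      exact ⟨h3.1, by rw [h3.2]; exact htW⟩
  -- an infinite set of parameters
  have hnhds : {t : ℂ | vertex t ∈ U₁ ∩ U₃} ∈ 𝓝 τ₀ :=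
    ((hU₁o.inter hU₃o).preimage continuous_vertex).mem_nhds ⟨hU₁m, hU₃m⟩
  have hinf : {t : ℂ | vertex t ∈ U₁ ∩ U₃}.Infinite := infinite_of_mem_nhds τ₀ hnhds
  apply hinf
  refine (((FourLines.finite_E τ₀).union (Set.toFinite {0, 1})).union finite_bad).subset ?_
  intro t ht
  by_cases h1 : vertex t ∈ W₁
  · left
    by_cases h2 : t ∈ ({0, 1} : Set ℂ)
    · exact Or.inr h2
    · left
      simp only [Set.mem_insert_iff, Set.mem_singleton_iff, not_or] at h2
      exact hkey t (hU₁ ⟨ht.1, h1⟩) ht.2 h2.1 h2.2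
  · right
    exact h1

end Example

end ZariskiEq
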