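import Pool.Agent.Lib.MP_e920bf_ag.Branch
import Pool.Agent.Lib.MP_e920bf_ag.Extend

open MvPolynomial

noncomputable section

namespace ZariskiEq

universe u

section Generic

variable {n : ℕ} {k : Type u} [Field k]

lemma algebraMap_generic_injective :
    Function.Injective (algebraMap (MvPolynomial (Fin n × Fin (n + 1)) k) (GenericField n k)) := by
  rw [IsScalarTower.algebraMap_eq (MvPolynomial (Fin n × Fin (n + 1)) k)
    (FractionRing (MvPolynomial (Fin n × Fin (n + 1)) k)) (GenericField n k)]
  exact (algebraMap (FractionRing (MvPolynomial (Fin n × Fin (n + 1)) k))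
    (GenericField n k)).injective.comp
    (IsFractionRing.injective (MvPolynomial (Fin n × Fin (n + 1)) k) _)

lemma isUnit_det_generic :
    IsUnit (Matrix.det (fun i j : Fin n => genericCoeff n k i j.succ)) := by
  classical
  rw [isUnit_iff_ne_zero]
  have h1 : (fun i j : Fin n => genericCoeff n k i j.succ) =
      (algebraMap (MvPolynomial (Fin n × Fin (n + 1)) k) (GenericField n k)).mapMatrix
        (Matrix.of fun i j : Fin n => X (i, j.succ)) := by
    ext i j
    rfl
  rw [h1, ← RingHom.map_det]
  intro h2
  have h3 := (map_eq_zero_iff _ algebraMap_generic_injective).1 h2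
  have h4 := congrArg (eval fun p : Fin n × Fin (n + 1) => if p.2 = p.1.succ then (1 : k) else 0) h3
  rw [RingHom.map_det, map_zero] at h4
  have h5 : (eval fun p : Fin n × Fin (n + 1) => if p.2 = p.1.succ then (1 : k) else 0).mapMatrix
      (Matrix.of fun i j : Fin n => X (i, j.succ)) = (1 : Matrix (Fin n) (Fin n) k) := by
    ext i j
    simp [Matrix.one_apply, eq_comm]
  rw [h5, Matrix.det_one] at h4
  exact one_ne_zero h4

lemma genericProj_ne_zero {n : ℕ} {k : Type u} [Field k] (b : Fin (n + 1 + 1) → k) (hb : b ≠ 0) :
    genericProj (n + 1) k (fun j => algebraMap k (GenericField (n + 1) k) (b j)) ≠ 0 := by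
  classical
  intro h
  obtain ⟨j0, hj0⟩ := Function.ne_iff.1 hb
  have h1 := congrFun h 0
  have h2 : genericProj (n + 1) k (fun j => algebraMap k (GenericField (n + 1) k) (b j)) 0 =
      algebraMap (MvPolynomial (Fin (n + 1) × Fin (n + 1 + 1)) k) (GenericField (n + 1) k)
        (∑ j, X (0, j) * C (b j)) := by
    rw [map_sum]
    refine Finset.sum_congr rfl fun j _ => ?_
    rw [map_mul]
    rfl
  rw [h2] at h1
  have h3 := (map_eq_zero_iff _ algebraMap_generic_injective).1 h1
  have h4 := congrArg (eval fun p : Fin (n + 1) × Fin (n + 1 + 1) =>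
    if p.2 = j0 then (1 : k) else 0) h3
  simp at h4
  exact hj0 h4

lemma genericProj_add_smul (a b : Fin (n + 1) → GenericField n k) (τ : GenericField n k) :
    genericProj n k (a + τ • b) = genericProj n k a + τ • genericProj n k b := by
  funext i
  simp only [genericProj, Pi.add_apply, Pi.smul_apply, smul_eq_mul, mul_add, Finset.sum_add_distrib,
    Finset.mul_sum]
  congr 1
  refine Finset.sum_congr rfl fun j _ => ?_
  ring

lemma vanishingIdeal_extendTo_ne_bot {m : ℕ} {K : Type u} [Field K] [Algebra k K]
    (V : Set (Fin m → k)) (hV : vanishingIdeal k V ≠ ⊥) :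
    vanishingIdeal K (extendTo K V) ≠ ⊥ := by
  obtain ⟨F, hF, hF0⟩ := Submodule.exists_mem_ne_zero_of_ne_bot hV
  intro h
  have h1 : map (algebraMap k K) F ∈ vanishingIdeal K (extendTo K V) := by
    rw [mem_vanishingIdeal]
    intro x hx
    rw [eval_map_aeval]
    exact hx F hF
  rw [h, Ideal.mem_bot] at h1
  exact hF0 (map_injective _ (algebraMap k K).injective (by rw [h1, map_zero]))

lemma vanishingIdeal_branchLocus_ne_bot [CharZero k] (V : Set (Fin (n + 1) → k))
    (hV : vanishingIdeal k V ≠ ⊥) :
    vanishingIdeal (GenericField n k) (branchLocus n V) ≠ ⊥ := by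
  have : CharZero (GenericField n k) :=
    charZero_of_injective_algebraMap (algebraMap k (GenericField n k)).injective
  obtain ⟨c, hc, h⟩ := Branch.exists_branch_equation (genericCoeff n k) isUnit_det_generic
    (extendTo (GenericField n k) V) (vanishingIdeal_extendTo_ne_bot V hV)
  intro h0
  apply hc
  rw [← Ideal.mem_bot, ← h0, mem_vanishingIdeal]
  rintro y ⟨x, ⟨hx, hcrit⟩, rfl⟩
  exact h x hx fun F hF v hv => hcrit F hF v hv

end Generic

section Line

variable {k : Type u} [Field k] {m : ℕ}

/-- The restriction of a polynomial to a line. -/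
def onLine (a b : Fin m → k) (p : MvPolynomial (Fin m) k) : Polynomial k :=
  aeval (fun i => Polynomial.C (a i) + Polynomial.X * Polynomial.C (b i)) p

lemma aeval_onLine {K : Type*} [Field K] [Algebra k K] (a b : Fin m → k)
    (p : MvPolynomial (Fin m) k) (τ : K) :
    Polynomial.aeval τ (onLine a b p) =
      aeval ((fun i => algebraMap k K (a i)) + τ • (fun i => algebraMap k K (b i))) p := by
  unfold onLine
  induction p using MvPolynomial.induction_on with
  | C r => simp
  | add p q hp hq => rw [map_add, map_add, map_add, hp, hq]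
  | mul_X p i hp =>
    rw [map_mul, map_mul, map_mul, hp, aeval_X, aeval_X]
    simp only [map_add, map_mul, Polynomial.aeval_C, Polynomial.aeval_X, Pi.add_apply,
      Pi.smul_apply, smul_eq_mul]

lemma eval_onLine (a b : Fin m → k) (p : MvPolynomial (Fin m) k) (τ : k) :
    (onLine a b p).eval τ = eval (a + τ • b) p := by
  have := aeval_onLine (K := k) a b p τ
  rw [Polynomial.coe_aeval_eq_eval] at this
  simpa using this

lemma extendTo_line [Infinite k] {K : Type u} [Field K] [Algebra k K] (a b : Fin m → k)
    (hb : b ≠ 0) :
    extendTo K (Set.range fun τ : k => a + τ • b) =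
      Set.range fun τ : K => (fun i => algebraMap k K (a i)) + τ • (fun i => algebraMap k K (b i)) := by
  classical
  ext x
  constructor
  · intro hx
    obtain ⟨j, hj⟩ := Function.ne_iff.1 hb
    have hj' : algebraMap k K (b j) ≠ 0 := by
      rw [Ne, map_eq_zero]; exact hj
    refine ⟨(x j - algebraMap k K (a j)) / algebraMap k K (b j), ?_⟩
    funext i
    have h1 : C (b j) * (X i - C (a i)) - C (b i) * (X j - C (a j)) ∈
        vanishingIdeal k (Set.range fun τ : k => a + τ • b) := by
      rw [mem_vanishingIdeal]
      rintro y ⟨τ, rfl⟩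
      simp
      ring
    have h2 := hx _ h1
    simp only [map_sub, map_mul, aeval_X, aeval_C] at h2
    simp only [Pi.add_apply, Pi.smul_apply, smul_eq_mul]
    field_simp
    linear_combination -h2
  · rintro ⟨τ, rfl⟩
    intro p hp
    rw [← aeval_onLine]
    have h1 : onLine a b p = 0 := by
      apply Polynomial.funext
      intro σ
      rw [eval_onLine, Polynomial.eval_zero]
      exact mem_vanishingIdeal.1 hp _ ⟨σ, rfl⟩
    rw [h1, map_zero]

lemma finite_eval_eq_zero (a b : Fin m → k) (p : MvPolynomial (Fin m) k) (τ₀ : k)
    (h : eval (a + τ₀ • b) p ≠ 0) : {τ : k | eval (a + τ • b) p = 0}.Finite := by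
  have h1 : onLine a b p ≠ 0 := by
    intro h0
    rw [← eval_onLine, h0, Polynomial.eval_zero] at h
    exact h rfl
  refine (Polynomial.finite_setOfPred_isRoot h1).subset ?_
  intro τ hτ
  change (onLine a b p).eval τ = 0
  rw [eval_onLine]
  exact hτ

/-- A hypersurface is equisingular along a line contained in it at all but finitely many points of
the line. -/
theorem finite_not_equisingular_line (n : ℕ) :
    ∀ (k : Type u) [Field k] [CharZero k] (V : Set (Fin (n + 1) → k))
      (_ : vanishingIdeal k V ≠ ⊥) (a b : Fin (n + 1) → k) (_ : b ≠ 0)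
      (_ : ∀ τ : k, a + τ • b ∈ V),
      {τ : k | ¬ EquisingularAt n k V (Set.range fun τ : k => a + τ • b) (a + τ • b)}.Finite := by
  induction n with
  | zero =>
    intro k _ _ V hV a b hb hL
    exfalso
    obtain ⟨F, hF, hF0⟩ := Submodule.exists_mem_ne_zero_of_ne_bot hV
    apply hF0
    apply MvPolynomial.funext
    intro x
    rw [map_zero]
    have hb0 : b 0 ≠ 0 := by
      intro h
      apply hb
      funext i
      rw [Fin.fin_one_eq_zero i]
      exact h
    have hx : x = a + ((x 0 - a 0) / b 0) • b := by
      funext i
      rw [Fin.fin_one_eq_zero i]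
      simp only [Pi.add_apply, Pi.smul_apply, smul_eq_mul]
      field_simp
      ring
    rw [hx]
    exact mem_vanishingIdeal.1 hF _ (hL _)
  | succ n ih =>
    intro k _ _ V hV a b hb hL
    by_cases h : (Set.range fun τ : k => a + τ • b) ⊆ singularLocus V
    · set K := GenericField (n + 1) k with hK
      have : CharZero K := charZero_of_injective_algebraMap (algebraMap k K).injective
      set a' := genericProj (n + 1) k (fun j => algebraMap k K (a j)) with ha'
      set b' := genericProj (n + 1) k (fun j => algebraMap k K (b j)) with hb'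
      have hW : genericProj (n + 1) k '' extendTo K (Set.range fun τ : k => a + τ • b) =
          Set.range fun τ : K => a' + τ • b' := by
        rw [extendTo_line a b hb, ← Set.range_comp]
        congr 1
        funext τ
        exact genericProj_add_smul _ _ _
      have hbranch : ∀ τ : K, a' + τ • b' ∈ branchLocus (n + 1) V := by
        intro τ
        have hmem : (fun i => algebraMap k K (a i)) + τ • (fun i => algebraMap k K (b i)) ∈
            extendTo K (Set.range fun τ : k => a + τ • b) := by
          rw [extendTo_line a b hb]; exact ⟨τ, rfl⟩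
        refine ⟨(fun i => algebraMap k K (a i)) + τ • (fun i => algebraMap k K (b i)), ⟨?_, ?_⟩,
          genericProj_add_smul _ _ _⟩
        · intro p hp
          apply hmem
          exact vanishingIdeal_anti_mono (fun y hy => (h hy).1) hp
        · intro F hF v _
          rw [grad_eq_zero_of_extend V _ ?_ F hF, zero_dotProduct]
          intro G hG j
          apply hmem
          rw [mem_vanishingIdeal]
          intro y hy
          exact congrFun ((h hy).2 G hG) j
      have hfin := ih K (branchLocus (n + 1) V) (vanishingIdeal_branchLocus_ne_bot V hV) a' b'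
        (genericProj_ne_zero b hb) hbranch
      refine (hfin.preimage ((algebraMap k K).injective.injOn)).subset ?_
      intro τ hτ
      change ¬ EquisingularAt n K _ _ _
      intro hE
      apply hτ
      refine Or.inr ⟨h, ?_⟩
      have hpt : genericProj (n + 1) k (fun j => algebraMap k K ((a + τ • b) j)) =
          a' + (algebraMap k K τ) • b' := by
        rw [ha', hb', ← genericProj_add_smul]
        congr 1
        funext j
        simp
      rw [hW, hpt]
      exact hE
    · obtain ⟨y, ⟨τ₀, hτ₀⟩, hy⟩ := Set.not_subset.1 h
      have hyV : y ∈ V := hτ₀ ▸ hL τ₀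
      have h1 : ∃ F ∈ vanishingIdeal k V, grad F y ≠ 0 := by
        by_contra hcon
        push Not at hcon
        exact hy ⟨hyV, hcon⟩
      obtain ⟨F, hF, hFy⟩ := h1
      obtain ⟨j, hj⟩ := Function.ne_iff.1 hFy
      subst hτ₀
      refine (finite_eval_eq_zero a b (pderiv j F) τ₀ hj).subset ?_
      intro τ hτ
      by_contra hne
      apply hτ
      refine Or.inl ⟨h, fun hs => hne ?_⟩
      exact congrFun (hs.2 F hF) j

end Line

end ZariskiEq
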